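import Pool.Agent.K6.H44.GV.Props

/-!
# The value group and the residue field of a generic valuation
-/

set_option autoImplicit false
set_option linter.unusedVariables false
set_option linter.unusedSectionVars false

universe u

namespace Pool.Agent.K6.H44.GV

open IsLocalRing Pool.Agent.W418.LU2 Pool.Agent.TH188.QS Pool.Agent.R187.CT
open Polynomial Topology

variable {R K : Type u} [CommRing R] [Field K]

/-- Any two elements are powers, up to units, of an element of the maximal ideal. -/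
def Cyc (V : ValuationSubring K) : Prop := ∀ x y : K, x ≠ 0 → y ≠ 0 →
  ∃ (w : K) (a b : ℤ), w ≠ 0 ∧ inM V w ∧ V.valuation x = V.valuation (w ^ a) ∧
    V.valuation y = V.valuation (w ^ b)

/-- The monic polynomials have approximate roots. -/
def Apx (V : ValuationSubring K) : Prop := ∀ f : K[X], f.Monic → 1 ≤ f.natDegree →
  ∀ c : K, c ≠ 0 → ∃ b : K, inM V (f.eval b / c)

theorem exists_rat {V : ValuationSubring K} (h1 : Cyc V) (h2 : Apx V) :
    ∃ ν : Kˣ →* Multiplicative ℚ, Function.Surjective ν ∧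
      ∀ x : Kˣ, (x : K) ∈ V ↔ 1 ≤ ν x := by
  classical
  obtain ⟨w, -, -, hw0, hwM, -, -⟩ := h1 1 1 one_ne_zero one_ne_zero
  have hγ0 : 0 < V.valuation w := zero_lt_iff.2 ((_root_.map_ne_zero _).2 hw0)
  have hγ1 : V.valuation w < 1 := inM_iff.1 hwM
  have hinj : Function.Injective fun n : ℤ => V.valuation w ^ n :=
    zpow_right_injective₀ hγ0 hγ1.ne
  have key : ∀ x : Kˣ, ∃ (a : ℤ) (b : ℕ), 1 ≤ b ∧
      V.valuation (x : K) ^ b = V.valuation w ^ a := by
    intro x
    obtain ⟨t, a, b, ht0, htM, hx, hw⟩ := h1 x w x.ne_zero hw0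
    have ht1 : V.valuation t < 1 := inM_iff.1 htM
    have ht0' : 0 < V.valuation t := zero_lt_iff.2 ((_root_.map_ne_zero _).2 ht0)
    rw [map_zpow₀] at hx hw
    have hb : 1 ≤ b := by
      by_contra hcon
      have hb0 : b ≤ 0 := by omega
      have h3 : 1 ≤ V.valuation t ^ b := by
        obtain ⟨k, hk⟩ := Int.eq_ofNat_of_zero_le (neg_nonneg.2 hb0)
        have h4 : V.valuation t ^ b = (V.valuation t ^ k)⁻¹ := by
          rw [← zpow_natCast, ← hk, zpow_neg, inv_inv]
        rw [h4]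
        exact (one_le_inv₀ (pow_pos ht0' k)).2 (pow_le_one₀ ht0'.le ht1.le)
      rw [← hw] at h3
      exact absurd hγ1 (not_lt.2 h3)
    obtain ⟨k, hk⟩ := Int.eq_ofNat_of_zero_le (zero_le_one.trans hb)
    refine ⟨a, k, by omega, ?_⟩
    rw [hx, hw, hk, ← zpow_natCast, ← zpow_mul, ← zpow_mul, mul_comm]
  have huniq : ∀ (x : K) (a a' : ℤ) (b b' : ℕ), 1 ≤ b → 1 ≤ b' →
      V.valuation x ^ b = V.valuation w ^ a → V.valuation x ^ b' = V.valuation w ^ a' →
      (a : ℚ) / b = a' / b' := by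
    intro x a a' b b' hb hb' h3 h4
    have h5 : V.valuation w ^ (a * b') = V.valuation w ^ (a' * b) := by
      rw [zpow_mul, zpow_mul, ← h3, ← h4, zpow_natCast, zpow_natCast, ← pow_mul, ← pow_mul,
        mul_comm]
    have h6 : a * b' = a' * b := hinj h5
    have h7 : (b : ℚ) ≠ 0 := by positivity
    have h8 : (b' : ℚ) ≠ 0 := by positivity
    rw [div_eq_div_iff h7 h8]
    exact_mod_cast h6
  choose a b hb hab using key
  let ν : Kˣ →* Multiplicative ℚ :=
    { toFun := fun x => Multiplicative.ofAdd ((a x : ℚ) / b x)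
      map_one' := by
        have h3 := huniq 1 (a 1) 0 (b 1) 1 (hb 1) le_rfl
          (by simpa using hab 1) (by simp)
        have h4 : (a 1 : ℚ) / b 1 = 0 := by rw [h3]; simp
        rw [h4]
        rfl
      map_mul' := by
        intro x y
        have h3 := huniq ((x * y : Kˣ) : K) (a (x * y)) (a x * b y + a y * b x) (b (x * y))
          (b x * b y) (hb _) (Nat.mul_pos (hb x) (hb y)) (hab _) (by
            rw [Units.val_mul, map_mul, mul_pow, pow_mul, hab x, mul_comm (b x) (b y), pow_mul,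
              hab y, zpow_add₀ hγ0.ne', zpow_mul, zpow_mul, zpow_natCast, zpow_natCast])
        rw [h3, ← ofAdd_add]
        congr 1
        have h7 : (b x : ℚ) ≠ 0 := by have := hb x; positivity
        have h8 : (b y : ℚ) ≠ 0 := by have := hb y; positivity
        push_cast
        field_simp }
  refine ⟨ν, ?_, fun x => ?_⟩
  · intro q
    obtain ⟨q, rfl⟩ := Multiplicative.ofAdd.surjective q
    have hn : 1 ≤ q.den := q.den_pos
    have hwm : w ^ q.num ≠ 0 := zpow_ne_zero _ hw0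
    obtain ⟨t, ht⟩ := h2 (X ^ q.den - C (w ^ q.num)) (monic_X_pow_sub_C _ (by omega))
      (by rw [natDegree_X_pow_sub_C]; exact hn) (w ^ q.num) hwm
    rw [eval_sub, eval_pow, eval_X, eval_C] at ht
    have h3 := val_add_eq (V := V) (x := 1) (map_one _) ht
    have h4 : 1 + (t ^ q.den - w ^ q.num) / w ^ q.num = t ^ q.den / w ^ q.num := by
      field_simp
      ring
    rw [h4, map_div₀, div_eq_one_iff_eq ((_root_.map_ne_zero _).2 hwm), map_pow, map_zpow₀] at h3
    have ht0 : t ≠ 0 := by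
      rintro rfl
      rw [map_zero, zero_pow (by omega)] at h3
      exact zpow_ne_zero _ hγ0.ne' h3.symm
    refine ⟨Units.mk0 t ht0, ?_⟩
    have h5 := huniq t (a (Units.mk0 t ht0)) q.num (b (Units.mk0 t ht0)) q.den (hb _) hn
      (hab (Units.mk0 t ht0)) h3
    change Multiplicative.ofAdd ((a (Units.mk0 t ht0) : ℚ) / b (Units.mk0 t ht0)) = _
    rw [h5, Rat.num_div_den]
  · have h3 : (1 : Multiplicative ℚ) ≤ ν x ↔ (0 : ℚ) ≤ (a x : ℚ) / b x := Iff.rfl
    have hbx := hb x
    have h7 : (0 : ℚ) < b x := by positivity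
    rw [h3, le_div_iff₀ h7, zero_mul, ← V.valuation_le_one_iff]
    have h8 : V.valuation (x : K) ≤ 1 ↔ V.valuation (x : K) ^ b x ≤ 1 := by
      rw [pow_le_one_iff_of_nonneg zero_le (by omega)]
    rw [h8, hab x]
    constructor
    · intro h
      by_contra hcon
      rw [not_le] at hcon
      have h9 : a x < 0 := by exact_mod_cast hcon
      obtain ⟨k, hk⟩ := Int.eq_ofNat_of_zero_le (neg_nonneg.2 h9.le)
      have h10 : V.valuation w ^ a x = (V.valuation w ^ k)⁻¹ := by
        rw [← zpow_natCast, ← hk, zpow_neg, inv_inv]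
      rw [h10] at h
      have h11 : V.valuation w ^ k < 1 := pow_lt_one₀ hγ0.le hγ1 (by omega)
      have h12 : 1 < (V.valuation w ^ k)⁻¹ := (one_lt_inv₀ (pow_pos hγ0 k)).2 h11
      exact absurd h (not_le.2 h12)
    · intro h
      have h9 : 0 ≤ a x := by exact_mod_cast h
      obtain ⟨k, hk⟩ := Int.eq_ofNat_of_zero_le h9
      rw [hk, zpow_natCast]
      exact pow_le_one₀ hγ0.le hγ1.le

theorem residue_algClosed {V : ValuationSubring K} (h2 : Apx V) :
    IsAlgClosed (ResidueField V) := by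
  classical
  refine IsAlgClosed.of_exists_root _ fun p hp hirr => ?_
  have hp1 : 1 ≤ p.natDegree := hirr.natDegree_pos
  have hlift : p ∈ lifts (residue V) := by
    rw [mem_lifts]
    exact map_surjective _ residue_surjective p
  obtain ⟨q, hq1, hq2, hq3⟩ := lifts_and_degree_eq_and_monic hlift hp
  have hqn : q.natDegree = p.natDegree := natDegree_eq_of_degree_eq hq2
  obtain ⟨b, hb⟩ := h2 (q.map V.subtype) (hq3.map _)
    (by rw [hq3.natDegree_map, hqn]; exact hp1) 1 one_ne_zero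
  rw [div_one, eval_map] at hb
  have hbV : b ∈ V := by
    have h3 : IsIntegral V b := by
      refine ⟨q - C ⟨_, hb.mem⟩, hq3.sub_of_left ?_, ?_⟩
      · refine lt_of_le_of_lt degree_C_le ?_
        rw [← natDegree_pos_iff_degree_pos, hqn]
        exact hp1
      · rw [eval₂_sub, eval₂_C]
        exact sub_self _
    obtain ⟨y, hy⟩ := (IsIntegrallyClosed.isIntegral_iff (R := V) (K := K)).1 h3
    rw [← hy]
    exact y.2
  have hs : ∀ a : V, V.subtype a ∈ V.toSubring := fun a => a.2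
  obtain ⟨h4, h5⟩ := eval₂_mem hs hbV q
  refine ⟨residue V ⟨b, hbV⟩, ?_⟩
  have h6 : residue V ⟨q.eval₂ V.subtype b, h4⟩ = 0 :=
    (residue_eq_zero_iff _).2 ((inM_coe _).1 hb)
  rw [h6] at h5
  rw [← hq1, eval_map]
  exact h5.symm

theorem residue_integral {ρ : R →+* K} {V : ValuationSubring K} (hV : ∀ a, ρ a ∈ V.toSubring)
    (h : ∀ z ∈ V, ∃ f : R[X], f.Monic ∧ inM V (f.eval₂ ρ z)) :
    ((residue V).comp (ρ.codRestrict V.toSubring hV)).IsIntegral := by
  intro x
  obtain ⟨z, rfl⟩ := residue_surjective x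
  obtain ⟨f, hf, hfM⟩ := h z z.2
  obtain ⟨h4, h5⟩ := eval₂_mem hV z.2 f
  refine ⟨f, hf, ?_⟩
  have h6 : residue V ⟨f.eval₂ ρ z, h4⟩ = 0 := (residue_eq_zero_iff _).2 ((inM_coe _).1 hfM)
  rw [h6] at h5
  exact h5.symm

/-- The properties of generic valuations. -/
theorem generic_props (hR : HJ R) [Countable K] {ρ : R →+* K}
    (hK : ∃ S : Set K, S.Finite ∧ ∀ z, Fr (rg ρ S) z) (hdim : Dim2 ρ) :
    ∀ᶠ V in residual (ZR ρ), Cyc V.1 ∧ Apx V.1 := by
  have h1 : ∀ q : {q : K × K // q.1 ≠ 0 ∧ q.2 ≠ 0}, ∀ᶠ V in residual (ZR ρ),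
      ∃ (w : K) (a b : ℤ), w ≠ 0 ∧ inM V.1 w ∧ V.1.valuation q.1.1 = V.1.valuation (w ^ a) ∧
        V.1.valuation q.1.2 = V.1.valuation (w ^ b) := by
    intro q
    obtain ⟨U, hU, hUd, h⟩ := dense_cyclic hR hK hdim q.1.1 q.1.2 q.2.1 q.2.2
    exact Filter.mem_of_superset (residual_of_dense_open hU hUd) h
  have hcX : Countable K[X] := by
    rw [← Cardinal.mk_le_aleph0_iff]
    exact (Polynomial.cardinalMk_le_max).trans (max_le (Cardinal.mk_le_aleph0_iff.2 inferInstance)
      le_rfl)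
  have h2 : ∀ q : {q : K[X] × K // q.1.Monic ∧ 1 ≤ q.1.natDegree ∧ q.2 ≠ 0},
      ∀ᶠ V in residual (ZR ρ), ∃ b : K, inM V.1 (q.1.1.eval b / q.1.2) := by
    intro q
    obtain ⟨U, hU, hUd, h⟩ := dense_approx hR hK hdim q.1.1 q.2.1 q.2.2.1 q.1.2 q.2.2.2
    exact Filter.mem_of_superset (residual_of_dense_open hU hUd) h
  rw [← eventually_countable_forall] at h1 h2
  filter_upwards [h1, h2] with V h3 h4
  exact ⟨fun x y hx hy => h3 ⟨(x, y), hx, hy⟩, fun f hf hf1 c hc => h4 ⟨(f, c), hf, hf1, hc⟩⟩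

theorem generic_integral [Countable K] [IsJacobsonRing R] (ρ : R →+* K) :
    ∀ᶠ V in residual (ZR ρ), ((residue V.1).comp (ρ.codRestrict V.1.toSubring V.2)).IsIntegral := by
  have h1 : ∀ z : K, ∀ᶠ V in residual (ZR ρ), z ∈ V.1 →
      ∃ f : R[X], f.Monic ∧ inM V.1 (f.eval₂ ρ z) := by
    intro z
    obtain ⟨U, hU, hUd, h⟩ := dense_integral (ρ := ρ) z
    exact Filter.mem_of_superset (residual_of_dense_open hU hUd) h
  rw [← eventually_countable_forall] at h1
  filter_upwards [h1] with V h2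
  exact residue_integral V.2 h2

end Pool.Agent.K6.H44.GV
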