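import Pool.Agent.K6.H44.GV.Gen

/-!
# Valuations centred at a curve through a closed point of a regular scheme
-/

set_option autoImplicit false
set_option linter.unusedVariables false
set_option linter.unusedSectionVars false

universe u

namespace Pool.Agent.K6.H44.GV

open IsLocalRing Pool.Agent.W418.LU2 Pool.Agent.TH188.QS Pool.Agent.R187.CT
open Polynomial Topology

variable {K : Type u} [Field K]

/-- A full regular system of parameters. -/
theorem full_system {A P : Subring K} {ι : Type} [Fintype ι] {x : ι → K} (h : RegP A P x)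
    (hdim : 2 ≤ ringKrullDim P) :
    ∃ (_ : IsRegularLocalRing P) (d : ℕ) (y : Fin (d + 2) → P),
      Ideal.span (Set.range y) = maximalIdeal P ∧ ringKrullDim P = ((d + 2 : ℕ) : WithBot ℕ∞) ∧
      ∀ g, PMon P x g → ∃ (u : K) (e : Fin (d + 2) → ℤ), u ≠ 0 ∧ u ∈ P ∧ u⁻¹ ∈ P ∧
        g = u * ∏ j, (y j : K) ^ e j := by
  classical
  have hreg := h.reg
  let ν := {i : ι // (⟨x i, h.mem i⟩ : P) ∈ maximalIdeal P}
  have hInd : Ind (fun i : ν => (⟨x i, h.mem i⟩ : P)) :=
    h.ind.ind (Subtype.val : ν → ι) Subtype.val_injective fun i => i.2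
  obtain ⟨m, w, hw, hd⟩ := hInd.extend
  obtain ⟨d, hdd⟩ : ∃ d, Fintype.card ν + m = d + 2 := by
    rw [hd] at hdim
    have h1 : 2 ≤ Fintype.card ν + m := by exact_mod_cast hdim
    exact ⟨Fintype.card ν + m - 2, by omega⟩
  let q : ν ⊕ Fin m ≃ Fin (d + 2) :=
    Fintype.equivFinOfCardEq (by rw [Fintype.card_sum, Fintype.card_fin, hdd])
  refine ⟨hreg, d, Sum.elim (fun i : ν => (⟨x i, h.mem i⟩ : P)) w ∘ q.symm, ?_, ?_, ?_⟩
  · rw [Set.range_comp, q.symm.range_eq_univ, Set.image_univ]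
    exact hw
  · rw [hd, hdd]
  · rintro g ⟨u, u0, u1, u2, δ, rfl⟩
    have hunit : ∀ i : {i : ι // ¬ (⟨x i, h.mem i⟩ : P) ∈ maximalIdeal P}, (x i)⁻¹ ∈ P := by
      intro i
      have h1 := i.2
      rw [mem_maximalIdeal, mem_nonunits_iff, not_not, h.isUnit] at h1
      exact h.inv _ (h.mem i) h1.1 h1.2
    let v := ∏ i : {i : ι // ¬ (⟨x i, h.mem i⟩ : P) ∈ maximalIdeal P}, x i ^ δ i
    have v0 : v ≠ 0 := Finset.prod_ne_zero_iff.2 fun i _ => zpow_ne_zero _ (h.ne _)
    have v1 : v ∈ P := by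
      refine P.prod_mem fun i _ => ?_
      rcases Int.eq_nat_or_neg (δ i) with ⟨n, h3 | h3⟩
      · rw [h3, zpow_natCast]; exact P.pow_mem (h.mem i) n
      · rw [h3, zpow_neg, zpow_natCast, ← inv_pow]; exact P.pow_mem (hunit i) n
    have v2 : v⁻¹ ∈ P := by
      change (∏ i : {i : ι // ¬ (⟨x i, h.mem i⟩ : P) ∈ maximalIdeal P}, x i ^ δ i)⁻¹ ∈ P
      rw [← Finset.prod_inv_distrib]
      refine P.prod_mem fun i _ => ?_
      rcases Int.eq_nat_or_neg (δ i) with ⟨n, h3 | h3⟩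
      · rw [h3, zpow_natCast, ← inv_pow]; exact P.pow_mem (hunit i) n
      · rw [h3, zpow_neg, zpow_natCast, inv_inv]; exact P.pow_mem (h.mem i) n
    have hsplit : mo x δ = v * ∏ i : ν, x i ^ δ i := by
      unfold mo
      rw [mul_comm]
      exact (Fintype.prod_subtype_mul_prod_subtype
        (fun i => (⟨x i, h.mem i⟩ : P) ∈ maximalIdeal P) fun i => x i ^ δ i).symm
    refine ⟨u * v, fun j => Sum.elim (fun i : ν => δ i) (fun _ => 0) (q.symm j),
      mul_ne_zero u0 v0, P.mul_mem u1 v1, by rw [mul_inv]; exact P.mul_mem u2 v2, ?_⟩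
    rw [hsplit, mul_assoc]
    congr 2
    rw [← q.prod_comp, Fintype.prod_sum_type]
    simp

/-- There is a prime ideal different from the maximal ideal which contains fewer elements than the
dimension. -/
theorem exists_curve {P : Type u} [CommRing P] [IsLocalRing P] [IsNoetherianRing P] {d : ℕ}
    (hdim : ringKrullDim P = ((d + 2 : ℕ) : WithBot ℕ∞)) (f : Fin (d + 1) → P)
    (hf : ∀ i, f i ∈ maximalIdeal P) :
    ∃ 𝔭 : Ideal P, 𝔭.IsPrime ∧ (∀ i, f i ∈ 𝔭) ∧ 𝔭 ≤ maximalIdeal P ∧ 𝔭 ≠ maximalIdeal P := by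
  have h1 : Ideal.span (Set.range f) ≤ maximalIdeal P := by
    rw [Ideal.span_le]
    rintro _ ⟨i, rfl⟩
    exact hf i
  have h2 : Ideal.span (Set.range f) ≠ ⊤ := fun h =>
    (maximalIdeal.isMaximal P).ne_top (top_le_iff.1 (h ▸ h1))
  obtain ⟨𝔭, h𝔭⟩ := Ideal.nonempty_minimalPrimes h2
  have h3 := Ideal.height_le_card_of_mem_minimalPrimes_span (Set.finite_range f) h𝔭
  refine ⟨𝔭, h𝔭.1.1, fun i => h𝔭.1.2 (Ideal.subset_span ⟨i, rfl⟩),
    le_maximalIdeal h𝔭.1.1.ne_top, ?_⟩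
  rintro rfl
  have h4 : ((maximalIdeal P).height : WithBot ℕ∞) = ((d + 2 : ℕ) : WithBot ℕ∞) := by
    rw [maximalIdeal_height_eq_ringKrullDim, hdim]
  have h5 : (maximalIdeal P).height = ((d + 2 : ℕ) : ℕ∞) := WithBot.coe_injective h4
  rw [h5] at h3
  have h6 : (Set.range f).ncard ≤ d + 1 := by
    have := Set.ncard_le_ncard (s := Set.range f) (t := Set.range f) le_rfl (Set.finite_range f)
    calc (Set.range f).ncard = (f '' Set.univ).ncard := by rw [Set.image_univ]
      _ ≤ (Set.univ : Set (Fin (d + 1))).ncard := Set.ncard_image_le (Set.finite_univ)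
      _ = d + 1 := by rw [Set.ncard_univ, Nat.card_eq_fintype_card, Fintype.card_fin]
  have h7 : ((d + 2 : ℕ) : ℕ∞) ≤ ((d + 1 : ℕ) : ℕ∞) := h3.trans (by exact_mod_cast h6)
  have h8 : d + 2 ≤ d + 1 := by exact_mod_cast h7
  omega

/-- Valuations composed of a valuation centred at a prime ideal and a valuation centred at the
closed point. -/
theorem exists_comp (P : Subring K) [IsLocalRing P] (𝔭 : Ideal P) [h𝔭 : 𝔭.IsPrime]
    (hle : 𝔭 ≤ maximalIdeal P) :
    ∃ V : ValuationSubring K, P ≤ V.toSubring ∧ (∀ p : P, p ∈ maximalIdeal P → inM V p) ∧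
      ∀ p q : P, p ∈ 𝔭 → q ∉ 𝔭 → inM V ((p : K) / q) := by
  obtain ⟨V₁, hPV, hV₁⟩ := exists_center P 𝔭
  have hPV' : ∀ p : P, P.subtype p ∈ V₁.toSubring := fun p => hPV p.2
  let θ := rsd V₁ P.subtype hPV'
  let 𝔪 : Ideal θ.range := Ideal.map θ.rangeRestrict (maximalIdeal P)
  have hker : RingHom.ker θ.rangeRestrict ≤ maximalIdeal P := by
    intro p hp
    apply hle
    rw [hV₁]
    have h1 : θ p = 0 := congrArg Subtype.val hp
    exact rsd_eq_zero.1 h1
  have hprime : 𝔪.IsPrime := Ideal.map_isPrime_of_surjective θ.rangeRestrict_surjective hker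
  obtain ⟨W, hθW, hW⟩ := exists_center θ.range 𝔪
  refine ⟨cmp V₁ W, fun p hp => ⟨hPV hp, hθW ⟨⟨p, hp⟩, rfl⟩⟩, fun p hp => ?_, fun p q hp hq => ?_⟩
  · refine inM_cmp (hPV p.2) ?_
    exact (hW (θ.rangeRestrict p)).1 (Ideal.mem_map_of_mem _ hp)
  · have hq0 : (q : K) ≠ 0 := fun h => hq (by
      have : q = 0 := Subtype.ext h
      rw [this]; exact 𝔭.zero_mem)
    have hqV : (q : K)⁻¹ ∈ V₁ := by
      by_contra h
      exact hq ((hV₁ q).2 (Or.inr h))
    have h1 : inM V₁ ((p : K) / q) := by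
      rw [div_eq_mul_inv, mul_comm]
      exact inM.mul_left hqV ((hV₁ p).1 hp)
    refine inM_cmp h1.mem (Or.inl ?_)
    exact (residue_eq_zero_iff _).2 ((inM_coe _).1 h1)

lemma val_add_eq {V : ValuationSubring K} {x y : K} (hx : V.valuation x = 1) (hy : inM V y) :
    V.valuation (x + y) = 1 := by
  rw [← hx]
  apply Valuation.map_add_eq_of_lt_left
  rw [hx]
  exact inM_iff.1 hy

lemma prod_zpow' {G : Type*} [CommGroupWithZero G] {a : G} (ha : a ≠ 0) {ι : Type*} (s : Finset ι)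
    (e : ι → ℤ) : ∏ j ∈ s, a ^ e j = a ^ (∑ j ∈ s, e j) := by
  classical
  induction s using Finset.induction_on with
  | empty => simp
  | insert i s hi ih => rw [Finset.prod_insert hi, Finset.sum_insert hi, ih, zpow_add₀ ha]

/-- A valuation centred at a closed point of a regular scheme of dimension at least two, for which
the value of a given monomial is divisible by `n`. -/
theorem exists_divisible {P : Subring K} [IsRegularLocalRing P] {d : ℕ} {y : Fin (d + 2) → P}
    (hy : Ideal.span (Set.range y) = maximalIdeal P)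
    (hdim : ringKrullDim P = ((d + 2 : ℕ) : WithBot ℕ∞)) (n : ℕ) (hn : 1 ≤ n)
    (e : Fin (d + 2) → ℤ) :
    ∃ V : ValuationSubring K, P ≤ V.toSubring ∧ (∀ p : P, p ∈ maximalIdeal P → inM V p) ∧
      ∃ b : K, V.valuation (b ^ n) = V.valuation (∏ j, (y j : K) ^ e j) := by
  classical
  have hym : ∀ j, y j ∈ maximalIdeal P := fun j => by
    rw [← hy]; exact Ideal.subset_span ⟨j, rfl⟩
  let f : Fin (d + 1) → P := Fin.cons ((y 1 - y 0) ^ n - y 0 ^ (n + 1))
    (fun j => y j.succ.succ - y 0)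
  obtain ⟨𝔭, h𝔭, hf𝔭, hle, hne⟩ := exists_curve hdim f (by
    intro i
    refine Fin.cases ?_ (fun j => ?_) i
    · exact Ideal.sub_mem _ (Ideal.pow_mem_of_mem _ (Ideal.sub_mem _ (hym 1) (hym 0)) n hn)
        (Ideal.pow_mem_of_mem _ (hym 0) _ (Nat.succ_pos n))
    · exact Ideal.sub_mem _ (hym _) (hym 0))
  have hf0 : (y 1 - y 0) ^ n - y 0 ^ (n + 1) ∈ 𝔭 := hf𝔭 0
  have hfj : ∀ j : Fin d, y j.succ.succ - y 0 ∈ 𝔭 := fun j => hf𝔭 j.succ
  have h0 : y 0 ∉ 𝔭 := by
    intro h0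
    apply hne
    apply le_antisymm hle
    rw [← hy, Ideal.span_le]
    rintro _ ⟨j, rfl⟩
    refine Fin.cases h0 (fun j => ?_) j
    refine Fin.cases ?_ (fun j => ?_) j
    · have h1 : (y 1 - y 0) ^ n ∈ 𝔭 := by
        have h2 := 𝔭.add_mem hf0 (𝔭.pow_mem_of_mem h0 (n + 1) (Nat.succ_pos n))
        rwa [sub_add_cancel] at h2
      have h2 := 𝔭.add_mem (h𝔭.mem_of_pow_mem _ h1) h0
      rwa [sub_add_cancel] at h2
    · have h2 := 𝔭.add_mem (hfj j) h0
      rwa [sub_add_cancel] at h2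
  obtain ⟨V, hPV, hmV, hV⟩ := exists_comp P 𝔭 hle
  refine ⟨V, hPV, hmV, ?_⟩
  have hy0 : (y 0 : K) ≠ 0 := fun h => h0 (by
    have : y 0 = 0 := Subtype.ext h
    rw [this]; exact 𝔭.zero_mem)
  set u : K := ((y 1 : K) - y 0) / y 0 with hu
  -- the values
  have hz : V.valuation (u ^ n) = V.valuation (y 0 : K) := by
    have h1 := hV _ (y 0 ^ (n + 1)) hf0 (fun h => h0 (h𝔭.mem_of_pow_mem _ h))
    have h2 : (((y 1 - y 0) ^ n - y 0 ^ (n + 1) : P) : K) / ((y 0 ^ (n + 1) : P) : K) =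
        u ^ n / y 0 - 1 := by
      push_cast
      rw [hu, div_pow]
      field_simp
      ring
    rw [h2] at h1
    have h3 : V.valuation (u ^ n / y 0) = 1 := by
      have h4 := val_add_eq (V := V) (x := 1) (map_one _) h1
      rwa [add_sub_cancel] at h4
    rw [map_div₀] at h3
    exact (div_eq_one_iff_eq ((_root_.map_ne_zero _).2 hy0)).1 h3
  have hval : ∀ j, V.valuation (y j : K) = V.valuation (y 0 : K) := by
    have key : ∀ j, inM V (((y j : K) - y 0) / y 0) →
        V.valuation (y j : K) = V.valuation (y 0 : K) := by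
      intro j h
      have h1 := val_add_eq (V := V) (x := 1) (map_one _) h
      have h2 : (1 : K) + ((y j : K) - y 0) / y 0 = y j / y 0 := by
        field_simp
        ring
      rw [h2, map_div₀] at h1
      exact (div_eq_one_iff_eq ((_root_.map_ne_zero _).2 hy0)).1 h1
    intro j
    refine Fin.cases rfl (fun j => ?_) j
    refine Fin.cases ?_ (fun j => ?_) j
    · apply key
      change inM V u
      rw [inM_iff]
      by_contra hcon
      rw [not_lt] at hcon
      have h1 : 1 ≤ V.valuation (u ^ n) := by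
        rw [map_pow]
        exact one_le_pow₀ hcon
      rw [hz] at h1
      exact absurd (inM_iff.1 (hmV _ (hym 0))) (not_lt.2 h1)
    · apply key
      exact hV _ _ (hfj j) h0
  refine ⟨u ^ (∑ j, e j), ?_⟩
  rw [map_prod]
  simp only [map_zpow₀, hval]
  rw [prod_zpow' ((_root_.map_ne_zero _).2 hy0), ← hz, map_pow, map_pow, map_zpow₀, ← zpow_natCast,
    ← zpow_natCast, ← zpow_mul, ← zpow_mul, mul_comm]

/-- A valuation centred at a closed point of a regular scheme of dimension at least two, for which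
a given monic polynomial has a root in the residue field. -/
theorem exists_root {P : Subring K} [IsRegularLocalRing P] {d : ℕ} {y : Fin (d + 2) → P}
    (hy : Ideal.span (Set.range y) = maximalIdeal P)
    (hdim : ringKrullDim P = ((d + 2 : ℕ) : WithBot ℕ∞)) (g : P[X]) (hg : g.Monic)
    (hg1 : 1 ≤ g.natDegree) :
    ∃ V : ValuationSubring K, P ≤ V.toSubring ∧ (∀ p : P, p ∈ maximalIdeal P → inM V p) ∧
      ∃ b : K, inM V (g.eval₂ P.subtype b) := by
  classical
  have hym : ∀ j, y j ∈ maximalIdeal P := fun j => by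
    rw [← hy]; exact Ideal.subset_span ⟨j, rfl⟩
  let G : P := ∑ i ∈ Finset.range (g.natDegree + 1), g.coeff i * (y 1 ^ i * y 0 ^ (g.natDegree - i))
  have hG : G = y 1 ^ g.natDegree +
      ∑ i ∈ Finset.range g.natDegree, g.coeff i * (y 1 ^ i * y 0 ^ (g.natDegree - i)) := by
    change ∑ i ∈ Finset.range (g.natDegree + 1), _ = _
    rw [Finset.sum_range_succ, hg.coeff_natDegree, Nat.sub_self, pow_zero, mul_one, one_mul,
      add_comm]
  let f : Fin (d + 1) → P := Fin.cons G (fun j => y j.succ.succ)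
  have hGm : G ∈ maximalIdeal P := by
    rw [hG]
    refine Ideal.add_mem _ (Ideal.pow_mem_of_mem _ (hym 1) _ hg1) (Ideal.sum_mem _ fun i hi => ?_)
    refine Ideal.mul_mem_left _ _ (Ideal.mul_mem_left _ _ (Ideal.pow_mem_of_mem _ (hym 0) _ ?_))
    have := Finset.mem_range.1 hi
    omega
  obtain ⟨𝔭, h𝔭, hf𝔭, hle, hne⟩ := exists_curve hdim f (by
    intro i
    refine Fin.cases hGm (fun j => hym _) i)
  have hf0 : G ∈ 𝔭 := hf𝔭 0
  have hfj : ∀ j : Fin d, y j.succ.succ ∈ 𝔭 := fun j => hf𝔭 j.succ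
  have h0 : y 0 ∉ 𝔭 := by
    intro h0
    apply hne
    apply le_antisymm hle
    rw [← hy, Ideal.span_le]
    rintro _ ⟨j, rfl⟩
    refine Fin.cases h0 (fun j => ?_) j
    refine Fin.cases ?_ (fun j => hfj j) j
    have h1 : ∑ i ∈ Finset.range g.natDegree, g.coeff i * (y 1 ^ i * y 0 ^ (g.natDegree - i)) ∈ 𝔭 := by
      refine Ideal.sum_mem _ fun i hi => ?_
      refine Ideal.mul_mem_left _ _ (Ideal.mul_mem_left _ _ (Ideal.pow_mem_of_mem _ h0 _ ?_))
      have := Finset.mem_range.1 hi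
      omega
    rw [hG] at hf0
    have h2 := 𝔭.sub_mem hf0 h1
    rw [add_sub_cancel_right] at h2
    exact h𝔭.mem_of_pow_mem _ h2
  obtain ⟨V, hPV, hmV, hV⟩ := exists_comp P 𝔭 hle
  refine ⟨V, hPV, hmV, (y 1 : K) / y 0, ?_⟩
  have hy0 : (y 0 : K) ≠ 0 := fun h => h0 (by
    have : y 0 = 0 := Subtype.ext h
    rw [this]; exact 𝔭.zero_mem)
  have h1 := hV G (y 0 ^ g.natDegree) hf0 (fun h => h0 (h𝔭.mem_of_pow_mem _ h))
  have h2 : (G : K) / ((y 0 ^ g.natDegree : P) : K) =
      g.eval₂ P.subtype ((y 1 : K) / y 0) := by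
    rw [eval₂_eq_sum_range]
    change P.subtype G / P.subtype (y 0 ^ g.natDegree) = _
    rw [map_sum, Finset.sum_div]
    refine Finset.sum_congr rfl fun i hi => ?_
    have hi' : i ≤ g.natDegree := by
      have := Finset.mem_range.1 hi
      omega
    obtain ⟨k, hk⟩ := Nat.exists_eq_add_of_le hi'
    rw [map_mul, map_mul, map_pow, map_pow, map_pow, hk, Nat.add_sub_cancel_left]
    change P.subtype (g.coeff i) * ((y 1 : K) ^ i * (y 0 : K) ^ k) / (y 0 : K) ^ (i + k) = _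
    rw [div_pow, pow_add]
    field_simp
  rw [← h2]
  exact h1

end Pool.Agent.K6.H44.GV
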