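import Pool.Agent.K6.H44.GV.Curve

/-!
# Valuations centred at a curve through a closed point of a regular scheme, continued
-/

set_option autoImplicit false
set_option linter.unusedVariables false
set_option linter.unusedSectionVars false

universe u

namespace Pool.Agent.K6.H44.GV

open IsLocalRing Pool.Agent.W418.LU2 Pool.Agent.TH188.QS Pool.Agent.R187.CT
open Polynomial Topology

variable {K : Type u} [Field K]

/-- A valuation centred at a closed point of a regular scheme, for which the parameters have the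
same value. -/
theorem exists_equal {P : Subring K} [IsRegularLocalRing P] {d : ℕ} {y : Fin (d + 2) → P}
    (hy : Ideal.span (Set.range y) = maximalIdeal P)
    (hdim : ringKrullDim P = ((d + 2 : ℕ) : WithBot ℕ∞)) :
    ∃ V : ValuationSubring K, P ≤ V.toSubring ∧ (∀ p : P, p ∈ maximalIdeal P → inM V p) ∧
      (y 0 : K) ≠ 0 ∧ ∀ j, V.valuation (y j : K) = V.valuation (y 0 : K) := by
  classical
  have hym : ∀ j, y j ∈ maximalIdeal P := fun j => by
    rw [← hy]; exact Ideal.subset_span ⟨j, rfl⟩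
  obtain ⟨𝔭, h𝔭, hf𝔭, hle, hne⟩ := exists_curve hdim (fun j : Fin (d + 1) => y j.succ - y 0)
    fun j => Ideal.sub_mem _ (hym _) (hym 0)
  have h0 : y 0 ∉ 𝔭 := by
    intro h0
    apply hne
    apply le_antisymm hle
    rw [← hy, Ideal.span_le]
    rintro _ ⟨j, rfl⟩
    refine Fin.cases h0 (fun j => ?_) j
    have h2 := 𝔭.add_mem (hf𝔭 j) h0
    rwa [sub_add_cancel] at h2
  obtain ⟨V, hPV, hmV, hV⟩ := exists_comp P 𝔭 hle
  have hy0 : (y 0 : K) ≠ 0 := fun h => h0 (by
    have : y 0 = 0 := Subtype.ext h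
    rw [this]; exact 𝔭.zero_mem)
  refine ⟨V, hPV, hmV, hy0, ?_⟩
  intro j
  refine Fin.cases rfl (fun j => ?_) j
  have h : inM V (((y j.succ : K) - y 0) / y 0) := hV _ _ (hf𝔭 j) h0
  have h1 := val_add_eq (V := V) (x := 1) (map_one _) h
  have h2 : (1 : K) + ((y j.succ : K) - y 0) / y 0 = y j.succ / y 0 := by
    field_simp
    ring
  rw [h2, map_div₀] at h1
  exact (div_eq_one_iff_eq ((_root_.map_ne_zero _).2 hy0)).1 h1

/-- The homogenization of a polynomial. -/
noncomputable def hmg {P : Type u} [CommRing P] (g : P[X]) (z w : P) : P :=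
  ∑ i ∈ Finset.range (g.natDegree + 1), g.coeff i * (z ^ i * w ^ (g.natDegree - i))

lemma hmg_eq {P : Type u} [CommRing P] {g : P[X]} (hg : g.Monic) (z w : P) :
    hmg g z w = z ^ g.natDegree +
      ∑ i ∈ Finset.range g.natDegree, g.coeff i * (z ^ i * w ^ (g.natDegree - i)) := by
  change ∑ i ∈ Finset.range (g.natDegree + 1), _ = _
  rw [Finset.sum_range_succ, hg.coeff_natDegree, Nat.sub_self, pow_zero, mul_one, one_mul,
    add_comm]

lemma sum_dvd {P : Type u} [CommRing P] (g : P[X]) (z w : P) :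
    w ∣ ∑ i ∈ Finset.range g.natDegree, g.coeff i * (z ^ i * w ^ (g.natDegree - i)) := by
  refine Finset.dvd_sum fun i hi => ?_
  have := Finset.mem_range.1 hi
  refine Dvd.dvd.mul_left (Dvd.dvd.mul_left (dvd_pow_self w (by omega)) _) _

lemma sum_dvd' {P : Type u} [CommRing P] (g : P[X]) (z w : P) (h : z ^ 2 ∣ w) :
    z ^ (g.natDegree + 1) ∣
      ∑ i ∈ Finset.range g.natDegree, g.coeff i * (z ^ i * w ^ (g.natDegree - i)) := by
  refine Finset.dvd_sum fun i hi => ?_
  have hi' := Finset.mem_range.1 hi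
  refine Dvd.dvd.mul_left ?_ _
  have h1 : z ^ (g.natDegree + 1) ∣ z ^ i * (z ^ 2) ^ (g.natDegree - i) := by
    rw [← pow_mul, ← pow_add]
    exact pow_dvd_pow z (by omega)
  exact h1.trans (mul_dvd_mul_left _ (pow_dvd_pow_of_dvd h _))

lemma hmg_eval {P : Subring K} {g : P[X]} {z w : P} (hw : (w : K) ≠ 0) :
    ((hmg g z w : P) : K) / ((w ^ g.natDegree : P) : K) = g.eval₂ P.subtype ((z : K) / w) := by
  rw [eval₂_eq_sum_range]
  unfold hmg
  change P.subtype (∑ i ∈ Finset.range (g.natDegree + 1), _) / P.subtype (w ^ g.natDegree) = _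
  rw [map_sum, Finset.sum_div]
  refine Finset.sum_congr rfl fun i hi => ?_
  have hi' : i ≤ g.natDegree := by
    have := Finset.mem_range.1 hi
    omega
  obtain ⟨k, hk⟩ := Nat.exists_eq_add_of_le hi'
  rw [map_mul, map_mul, map_pow, map_pow, map_pow, hk, Nat.add_sub_cancel_left]
  change P.subtype (g.coeff i) * ((z : K) ^ i * (w : K) ^ k) / (w : K) ^ (i + k) = _
  rw [div_pow, pow_add]
  field_simp

/-- A valuation centred at a closed point of a regular scheme of dimension at least two, for which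
a given monic polynomial has an approximate root. -/
theorem exists_approx {P : Subring K} [IsRegularLocalRing P] {d : ℕ} {y : Fin (d + 2) → P}
    (hy : Ideal.span (Set.range y) = maximalIdeal P)
    (hdim : ringKrullDim P = ((d + 2 : ℕ) : WithBot ℕ∞)) (g : P[X]) (hg : g.Monic)
    (hg1 : 1 ≤ g.natDegree) (e : Fin (d + 2) → ℤ) :
    ∃ V : ValuationSubring K, P ≤ V.toSubring ∧ (∀ p : P, p ∈ maximalIdeal P → inM V p) ∧
      ∃ b : K, inM V (g.eval₂ P.subtype b / ∏ j, (y j : K) ^ e j) := by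
  classical
  have hym : ∀ j, y j ∈ maximalIdeal P := fun j => by
    rw [← hy]; exact Ideal.subset_span ⟨j, rfl⟩
  let z : P := y 1 - y 0
  let w : P := y 0 ^ 2
  have hz : z ∈ maximalIdeal P := Ideal.sub_mem _ (hym 1) (hym 0)
  have hw : w ∈ maximalIdeal P := Ideal.pow_mem_of_mem _ (hym 0) 2 (by norm_num)
  have hGm : hmg g z w ∈ maximalIdeal P := by
    rw [hmg_eq hg]
    exact Ideal.add_mem _ (Ideal.pow_mem_of_mem _ hz _ hg1)
      (Ideal.mem_of_dvd _ (sum_dvd g z w) hw)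
  let f : Fin (d + 1) → P := Fin.cons (hmg g z w) (fun j => y j.succ.succ - y 0)
  obtain ⟨𝔭, h𝔭, hf𝔭, hle, hne⟩ := exists_curve hdim f (by
    intro i
    refine Fin.cases hGm (fun j => ?_) i
    exact Ideal.sub_mem _ (hym _) (hym 0))
  have hf0 : hmg g z w ∈ 𝔭 := hf𝔭 0
  have hfj : ∀ j : Fin d, y j.succ.succ - y 0 ∈ 𝔭 := fun j => hf𝔭 j.succ
  have h0 : y 0 ∉ 𝔭 := by
    intro h0
    apply hne
    apply le_antisymm hle
    rw [← hy, Ideal.span_le]
    rintro _ ⟨j, rfl⟩
    refine Fin.cases h0 (fun j => ?_) j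
    refine Fin.cases ?_ (fun j => ?_) j
    · rw [hmg_eq hg] at hf0
      have h1 : w ∈ 𝔭 := 𝔭.pow_mem_of_mem h0 2 (by norm_num)
      have h2 := 𝔭.sub_mem hf0 (Ideal.mem_of_dvd _ (sum_dvd g z w) h1)
      rw [add_sub_cancel_right] at h2
      have h3 : z + y 0 ∈ 𝔭 := 𝔭.add_mem (h𝔭.mem_of_pow_mem _ h2) h0
      have h4 : z + y 0 = y 1 := sub_add_cancel _ _
      rw [h4] at h3
      exact h3
    · have h2 := 𝔭.add_mem (hfj j) h0
      rwa [sub_add_cancel] at h2
  have h1 : y 1 ∉ 𝔭 := by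
    intro h1
    apply h0
    have h2 : hmg g (-y 0) w ∈ 𝔭 := by
      have h3 : Ideal.Quotient.mk 𝔭 z = Ideal.Quotient.mk 𝔭 (-y 0) := by
        rw [Ideal.Quotient.eq]
        have h4 : z - -y 0 = y 1 := by
          change y 1 - y 0 - -y 0 = y 1
          ring
        rw [h4]
        exact h1
      have h5 : Ideal.Quotient.mk 𝔭 (hmg g z w) = Ideal.Quotient.mk 𝔭 (hmg g (-y 0) w) := by
        unfold hmg
        simp only [map_sum, map_mul, map_pow, h3]
      rw [← Ideal.Quotient.eq_zero_iff_mem] at hf0 ⊢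
      rw [← h5]
      exact hf0
    rw [hmg_eq hg] at h2
    obtain ⟨q, hq⟩ := sum_dvd' g (-y 0) w (by
      have : (-y 0) ^ 2 = w := neg_sq _
      rw [this])
    rw [hq] at h2
    have h3 : (-y 0) ^ g.natDegree + (-y 0) ^ (g.natDegree + 1) * q =
        (-y 0) ^ g.natDegree * (1 + (-y 0) * q) := by ring
    rw [h3] at h2
    rcases h𝔭.mem_or_mem h2 with h4 | h4
    · exact neg_mem_iff.1 (h𝔭.mem_of_pow_mem _ h4)
    · exfalso
      have h5 : (1 : P) ∈ maximalIdeal P := by
        have h6 := (maximalIdeal P).sub_mem (hle h4)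
          ((maximalIdeal P).mul_mem_right q ((maximalIdeal P).neg_mem (hym 0)))
        rwa [add_sub_cancel_right] at h6
      exact (Ideal.ne_top_iff_one _).1 (maximalIdeal.isMaximal P).ne_top h5
  have hyj : ∀ j, y j ∉ 𝔭 := by
    intro j
    refine Fin.cases h0 (fun j => ?_) j
    refine Fin.cases h1 (fun j => ?_) j
    intro h
    apply h0
    have h2 := 𝔭.sub_mem h (hfj j)
    rwa [sub_sub_cancel] at h2
  obtain ⟨V, hPV, hmV, hV⟩ := exists_comp P 𝔭 hle
  refine ⟨V, hPV, hmV, (z : K) / w, ?_⟩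
  have hyj0 : ∀ j, (y j : K) ≠ 0 := fun j h => hyj j (by
    have : y j = 0 := Subtype.ext h
    rw [this]; exact 𝔭.zero_mem)
  have hw𝔭 : w ∉ 𝔭 := fun h => h0 (h𝔭.mem_of_pow_mem _ h)
  have hw0 : (w : K) ≠ 0 := fun h => hw𝔭 (by
    have : w = 0 := Subtype.ext h
    rw [this]; exact 𝔭.zero_mem)
  -- the denominator
  let q : P := w ^ g.natDegree * ∏ j, y j ^ (e j).toNat
  have hq : q ∉ 𝔭 := by
    intro h
    rcases h𝔭.mem_or_mem h with h2 | h2
    · exact hw𝔭 (h𝔭.mem_of_pow_mem _ h2)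
    · obtain ⟨j, -, hj⟩ := (h𝔭.prod_mem_iff).1 h2
      exact hyj j (h𝔭.mem_of_pow_mem _ hj)
  have h3 := hV _ q hf0 hq
  have h4 : ∏ j, (y j : K) ^ (-e j).toNat ∈ V := hPV (by
    refine P.prod_mem fun j _ => P.pow_mem (y j).2 _)
  have h5 : g.eval₂ P.subtype ((z : K) / w) / ∏ j, (y j : K) ^ e j =
      (∏ j, (y j : K) ^ (-e j).toNat) * (((hmg g z w : P) : K) / (q : K)) := by
    rw [← hmg_eval hw0]
    have h6 : ((∏ j, y j ^ (e j).toNat : P) : K) = ∏ j, (y j : K) ^ (e j).toNat := by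
      push_cast
      rfl
    have h7 : (q : K) = ((w ^ g.natDegree : P) : K) * ∏ j, (y j : K) ^ (e j).toNat := by
      rw [← h6]
      rfl
    have h8 : (∏ j, (y j : K) ^ e j) * ∏ j, (y j : K) ^ (-e j).toNat =
        ∏ j, (y j : K) ^ (e j).toNat := by
      rw [← Finset.prod_mul_distrib]
      refine Finset.prod_congr rfl fun j _ => ?_
      rw [← zpow_natCast, ← zpow_natCast, ← zpow_add₀ (hyj0 j)]
      congr 1
      omega
    have h9 : ∏ j, (y j : K) ^ e j ≠ 0 := Finset.prod_ne_zero_iff.2 fun j _ =>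
      zpow_ne_zero _ (hyj0 j)
    have h10 : ∏ j, (y j : K) ^ (-e j).toNat ≠ 0 := Finset.prod_ne_zero_iff.2 fun j _ =>
      pow_ne_zero _ (hyj0 j)
    have h11 : ((w ^ g.natDegree : P) : K) ≠ 0 := by
      push_cast
      exact pow_ne_zero _ hw0
    rw [h7, ← h8]
    field_simp
  rw [h5]
  exact inM.mul_left h4 h3

end Pool.Agent.K6.H44.GV
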