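import Pool.Agent.K6.H44.GV.DimF

/-!
# Log desingularization along the valuations of a dense open set
-/

set_option autoImplicit false
set_option linter.unusedVariables false
set_option linter.unusedSectionVars false

universe u

namespace Pool.Agent.K6.H44.GV

open IsLocalRing Pool.Agent.W418.LU2 Pool.Agent.TH188.QS Pool.Agent.R187.CT
open Polynomial Topology

/-- Log desingularization from a model on which finitely many elements are monomials. -/
theorem desing_of {K : Type u} [Field K] {V : ValuationSubring K} {A : Subring K}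
    (hA : A ≤ V.toSubring) {D I₀ : Ideal A} {S S' : Finset A}
    (hS : Ideal.span (S : Set A) = D) (hS' : Ideal.span (S' : Set A) = I₀)
    {d f : A} (hdS : d ∈ S) (hd0 : d ≠ 0) (hfS : f ∈ S') (hf0 : f ≠ 0)
    {ι : Type} [Fintype ι] {x : ι → K} {P : Subring K} {g : K}
    (hreg : RegP V.toSubring P x) (hFgM : Fg V A P g) (hgmon : PMon P x g)
    (hdf : PMon P x ((d : K) * f)) (hHd : ∀ a ∈ S, (a : K) / d ∈ P)
    (hHf : ∀ a ∈ S', (a : K) / f ∈ P) :
    ∃ I₁ : Ideal A, I₁ ≠ ⊥ ∧ LogDesing V A D (I₀ * I₁) := by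
  classical
  have hdD : d ∈ D := by rw [← hS]; exact Ideal.subset_span hdS
  have hfI : f ∈ I₀ := by rw [← hS']; exact Ideal.subset_span hfS
  have hd0' : (d : K) ≠ 0 := fun h => hd0 (Subtype.ext h)
  have hf0' : (f : K) ≠ 0 := fun h => hf0 (Subtype.ext h)
  obtain ⟨hgA, hgne, T, hTf, hT, hQM⟩ := hFgM
  have hBQ : Subring.closure ((A : Set K) ∪ T) ≤ P := by rw [hQM]; exact le_lo _ _
  have hAQ : A ≤ P := fun a ha => hBQ (Subring.subset_closure (Or.inl ha))
  have hDQ : ∀ a ∈ D, (a : K) / d ∈ P := by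
    intro a ha
    rw [← hS] at ha
    exact gen_div hAQ (fun a ha => hHd a ha) ha
  have hIQ : ∀ a ∈ I₀, (a : K) / f ∈ P := by
    intro a ha
    rw [← hS'] at ha
    exact gen_div hAQ (fun a ha => hHf a ha) ha
  let gA : A := ⟨g, hgA⟩
  let U : Set A := insert gA {a | ∃ t ∈ T, (a : K) = t * g}
  have hgU : gA ∈ Ideal.span U := Ideal.subset_span (Set.mem_insert _ _)
  have hUQ : ∀ a ∈ Ideal.span U, (a : K) / g ∈ P := by
    intro a ha
    refine gen_div hAQ (fun a ha => ?_) ha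
    rcases ha with rfl | ⟨t, ht, hat⟩
    · change g / g ∈ P
      rw [div_self hgne]
      exact P.one_mem
    · rw [hat, mul_div_cancel_right₀ _ hgne]
      exact hBQ (Subring.subset_closure (Or.inr ht))
  have hgA0 : gA ≠ 0 := fun h => hgne (congrArg Subtype.val h)
  refine ⟨Ideal.span U, ?_, ?_⟩
  · intro h
    rw [h, Ideal.mem_bot] at hgU
    exact hgA0 hgU
  have hfg : f * gA ∈ I₀ * Ideal.span U := Ideal.mul_mem_mul hfI hgU
  have hIU : ∀ a ∈ I₀ * Ideal.span U, (a : K) / ((f * gA : A) : K) ∈ P := by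
    intro a ha
    refine Submodule.mul_induction_on ha ?_ ?_
    · intro b hb c hc
      have h3 : ((b * c : A) : K) / ((f * gA : A) : K) = (b : K) / (f : K) * ((c : K) / g) := by
        change (b : K) * (c : K) / ((f : K) * g) = _
        field_simp
      rw [h3]
      exact P.mul_mem (hIQ b hb) (hUQ c hc)
    · intro b c hb hc
      have h3 : ((b + c : A) : K) / ((f * gA : A) : K) = (b : K) / ((f * gA : A) : K) +
          (c : K) / ((f * gA : A) : K) := add_div _ _ _
      rw [h3]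
      exact P.add_mem hb hc
  refine logDesing_of hfg (mul_ne_zero hf0 hgA0) (fun a ha => hreg.PA (hIU a ha)) hdD hd0 ?_ hreg
    hDQ ?_
  · apply le_antisymm
    · nth_rewrite 1 [hQM]
      refine lo_le_lo (cl_le hA fun t ht => (hT t ht).1) ?_
      rw [← hQM]
      unfold chart
      rw [Subring.closure_le]
      rintro z (hz | ⟨a, ha, rfl⟩)
      · exact hAQ hz
      · exact hIU a ha
    · nth_rewrite 1 [hQM]
      refine lo_mono ?_
      rw [Subring.closure_le]
      rintro z (hz | hz)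
      · exact Subring.subset_closure (Or.inl hz)
      · have h3 : (⟨z * g, (hT z hz).2⟩ : A) ∈ Ideal.span U :=
          Ideal.subset_span (Or.inr ⟨z, hz, rfl⟩)
        refine Subring.subset_closure (Or.inr ⟨f * ⟨z * g, (hT z hz).2⟩,
          Ideal.mul_mem_mul hfI h3, ?_⟩)
        change z = (f : K) * (z * g) / ((f : K) * g)
        field_simp
  · have h3 : (d : K) * ((f * gA : A) : K) = (d : K) * f * g := by
      change (d : K) * ((f : K) * g) = _
      ring
    rw [h3]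
    exact hdf.mul hreg.ne hgmon

/-- Intersections of finitely many dense open sets. -/
lemma dense_iInter_finite {X ι : Type*} [TopologicalSpace X] {s : Set ι} (hs : s.Finite)
    {f : ι → Set X} (ho : ∀ i ∈ s, IsOpen (f i)) (hd : ∀ i ∈ s, Dense (f i)) :
    Dense (⋂ i ∈ s, f i) := by
  induction s, hs using Set.Finite.induction_on with
  | empty => simp
  | @insert a s _ hs ih =>
    rw [Set.biInter_insert]
    exact (hd a (Set.mem_insert _ _)).inter_of_isOpen_left
      (ih (fun i hi => ho i (Set.mem_insert_of_mem _ hi))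
        fun i hi => hd i (Set.mem_insert_of_mem _ hi)) (ho a (Set.mem_insert _ _))

/-- For given `B`, `D` and `I₀` there are log desingularizations along the valuations of a dense
open set. -/
theorem dense_desing {R K : Type u} [CommRing R] [Field K] {ρ : R →+* K} (hR : HJ R) {T : Set K}
    (hT : T.Finite) {B : Subring K} (hAB : rg ρ T ≤ B)
    (hBA : ∀ b ∈ B, ∃ a ∈ rg ρ T, ∃ s ∈ rg ρ T, s ≠ 0 ∧ s⁻¹ ∈ B ∧ b = a * s⁻¹)
    (hBK : ∀ z, Fr B z) (D I₀ : Ideal B) (hD : D ≠ ⊥) (hI₀ : I₀ ≠ ⊥) :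
    ∃ U : Set (ZR ρ), IsOpen U ∧ Dense U ∧ ∀ V ∈ U, B ≤ V.1.toSubring →
      ∃ I₁ : Ideal B, I₁ ≠ ⊥ ∧ LogDesing V.1 B D (I₀ * I₁) := by
  classical
  have hfr : ∀ z, Fr (rg ρ T) z := by
    intro z
    obtain ⟨b, hb, c, hc, hc0, rfl⟩ := hBK z
    obtain ⟨a, ha, s, hs, hs0, -, rfl⟩ := hBA b hb
    obtain ⟨a', ha', s', hs', hs'0, -, rfl⟩ := hBA c hc
    have ha'0 : a' ≠ 0 := left_ne_zero_of_mul hc0
    refine ⟨a * s', Subring.mul_mem _ ha hs', s * a', Subring.mul_mem _ hs ha',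
      mul_ne_zero hs0 ha'0, ?_⟩
    field_simp
  have hnB : IsNoetherianRing B :=
    (main hR (V := ⊤) ρ hT (B := B) (fun _ _ => trivial) hAB hBA (Or.inl ⟨0, rfl⟩)).2
  obtain ⟨S, hS⟩ := (IsNoetherian.noetherian D : D.FG)
  obtain ⟨S', hS'⟩ := (IsNoetherian.noetherian I₀ : I₀.FG)
  have hS : Ideal.span (S : Set B) = D := hS
  have hS' : Ideal.span (S' : Set B) = I₀ := hS'
  let G : B × B → Set K := fun q => {(q.1 : K) * q.2}
  let H : B × B → Set K := fun q => ((fun a : B => (a : K) / q.1) '' S) ∪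
    ((fun a : B => (a : K) / q.2) '' S')
  let O : B × B → Set (ZR ρ) := fun q => interior {V : ZR ρ | rg ρ T ≤ V.1.toSubring →
    (∀ h ∈ H q, h ∈ V.1) → Dt V.1 (rg ρ T) ∅ (G q) (H q)}
  let s : Set (B × B) := {q | q.1 ∈ S ∧ q.2 ∈ S' ∧ q.1 ≠ 0 ∧ q.2 ≠ 0}
  have hs : s.Finite := by
    refine ((S.finite_toSet).prod (S'.finite_toSet)).subset ?_
    rintro q ⟨h1, h2, -, -⟩
    exact ⟨h1, h2⟩
  have hO : ∀ q ∈ s, Dense (O q) := by
    rintro q ⟨-, -, h3, h4⟩
    refine dense_interior hR hT hfr (Set.finite_singleton _)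
      ((S.finite_toSet.image _).union (S'.finite_toSet.image _)) ?_
    intro g hg
    rw [Set.mem_singleton_iff.1 hg]
    exact mul_ne_zero (fun h => h3 (Subtype.ext h)) (fun h => h4 (Subtype.ext h))
  refine ⟨⋂ q ∈ s, O q, hs.isOpen_biInter fun _ _ => isOpen_interior,
    dense_iInter_finite hs (fun _ _ => isOpen_interior) hO, fun V hV hBV => ?_⟩
  obtain ⟨d, hdS, hd0, hd⟩ := exists_gen V.1 hBV S.finite_toSet (by rw [hS]; exact hD)
  obtain ⟨f, hfS, hf0, hf⟩ := exists_gen V.1 hBV S'.finite_toSet (by rw [hS']; exact hI₀)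
  have h1 : V ∈ O (d, f) := Set.mem_iInter₂.1 hV (d, f) ⟨hdS, hfS, hd0, hf0⟩
  obtain ⟨ι, _, x, g, T', hT', -, hT'2, hg, hg0, hreg, hgm, hGm, hHm⟩ :=
    interior_subset h1 (hAB.trans hBV) (by
      rintro h (⟨a, ha, rfl⟩ | ⟨a, ha, rfl⟩)
      · exact hd a (Ideal.subset_span ha)
      · exact hf a (Ideal.subset_span ha))
  have hBA' : B ≤ lo V.1.toSubring (rg ρ T) := by
    intro b hb
    obtain ⟨a, ha, s, hs, hs0, hsB, rfl⟩ := hBA b hb
    exact ⟨a, ha, s, hs, hs0, hBV hsB, rfl⟩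
  have hTV : Subring.closure ((rg ρ T : Set K) ∪ T') ≤ V.1.toSubring :=
    cl_le (hAB.trans hBV) fun t ht => (hT'2 t ht).1
  refine desing_of hBV hS hS' hdS hd0 hfS hf0 hreg ⟨hAB hg, hg0, T', hT', fun t ht =>
    ⟨(hT'2 t ht).1, hAB (hT'2 t ht).2⟩, ?_⟩ hgm (hGm _ rfl)
    (fun a ha => hHm _ (Or.inl ⟨a, ha, rfl⟩)) (fun a ha => hHm _ (Or.inr ⟨a, ha, rfl⟩))
  apply le_antisymm
  · refine lo_mono (Subring.closure_mono ?_)
    rintro z (hz | hz)
    · exact Or.inl (hAB hz)
    · exact Or.inr hz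
  · refine lo_le_lo hTV ?_
    rw [Subring.closure_le]
    rintro z (hz | hz)
    · exact lo_mono (fun a ha => Subring.subset_closure (Or.inl ha)) (hBA' hz)
    · exact le_lo _ _ (Subring.subset_closure (Or.inr hz))

end Pool.Agent.K6.H44.GV
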