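import Pool.Agent.K6.H44.GV.Concl
import Pool.Agent.Helper226.Dim

/-!
# Models of dimension at least two
-/

set_option autoImplicit false
set_option linter.unusedVariables false
set_option linter.unusedSectionVars false

universe u

namespace Pool.Agent.K6.H44.GV

open IsLocalRing Pool.Agent.W418.LU2 Pool.Agent.TH188.QS Pool.Agent.R187.CT
open Polynomial Topology

variable {R K : Type u} [CommRing R] [Field K]

/-- Models over a field. -/
theorem dim2_field_aux (hR : IsField R) (ρ : R →+* K) (x : Fin 2 → K)
    (hx : ∀ F : MvPolynomial (Fin 2) R, MvPolynomial.eval₂ ρ x F = 0 → F = 0) {T : Set K}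
    (hT : T.Finite) {B : Subring K} (hB : B = rg ρ T) (hfr : ∀ z, Fr B z) (m : Ideal B)
    (hm : m.IsMaximal) : 2 ≤ m.height := by
  classical
  let _ : Field R := hR.toField
  let _ : Algebra R K := ρ.toAlgebra
  have hρB : ∀ a, ρ a ∈ B := fun a => by
    rw [hB]; exact Subring.subset_closure (Or.inl ⟨a, rfl⟩)
  let _ : Algebra R B := (ρ.codRestrict B hρB).toAlgebra
  let j : B →ₐ[R] K := { B.subtype with commutes' := fun r => rfl }
  have hj : Function.Injective j := Subtype.val_injective
  have hfin : Algebra.FiniteType R (Algebra.adjoin R T) := by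
    rw [← Subalgebra.fg_iff_finiteType]
    exact ⟨hT.toFinset, by rw [hT.coe_toFinset]⟩
  have hadj : (Algebra.adjoin R T).toSubring = B := by rw [hB]; exact adjoin_toSubring _
  have hle : ∀ a : Algebra.adjoin R T, (a : K) ∈ B := fun a => by
    rw [← hadj]; exact a.2
  let ψ : Algebra.adjoin R T →ₐ[R] B :=
    { (Algebra.adjoin R T).val.toRingHom.codRestrict B hle with commutes' := fun r => rfl }
  have hsurj : Function.Surjective ψ := by
    intro b
    have hb : (b : K) ∈ Algebra.adjoin R T := by
      have h1 : (b : K) ∈ (Algebra.adjoin R T).toSubring := by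
        rw [hadj]; exact b.2
      exact h1
    exact ⟨⟨b, hb⟩, rfl⟩
  have hft : Algebra.FiniteType R B := hfin.of_surjective ψ hsurj
  obtain ⟨s, g, ginj, gint⟩ := exists_integral_inj_algHom_of_fg R B
  let _ : Algebra (MvPolynomial (Fin s) R) B := g.toRingHom.toAlgebra
  have hint : Algebra.IsIntegral (MvPolynomial (Fin s) R) B := ⟨gint⟩
  have hfs : FaithfulSMul (MvPolynomial (Fin s) R) B :=
    (faithfulSMul_iff_algebraMap_injective _ _).2 ginj
  have hN : IsNoetherianRing B := Algebra.FiniteType.isNoetherianRing R B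
  let p : Ideal (MvPolynomial (Fin s) R) := m.comap (algebraMap _ B)
  have hp : p.IsMaximal := Ideal.isMaximal_comap_of_isIntegral_of_isMaximal m
  have hlo : m.LiesOver p := ⟨rfl⟩
  have h1 := Ideal.height_eq_height_add_of_liesOver_of_hasGoingDown p m
  have h2 : p.height ≤ m.height := by
    rw [h1]
    exact le_self_add
  rw [Pool.Agent.Helper226.mvPolynomial_height R s p hp] at h2
  refine le_trans ?_ h2
  -- the transcendence degree is at most `s`
  let S : Set K := Set.range fun i : Fin s => j (g (MvPolynomial.X i))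
  have hSB : ∀ F : MvPolynomial (Fin s) R, j (g F) ∈ Algebra.adjoin R S := by
    intro F
    induction F using MvPolynomial.induction_on with
    | C r =>
      have h3 : j (g (MvPolynomial.C r)) = algebraMap R K r := by
        have h4 : g (MvPolynomial.C r) = algebraMap R B r := g.commutes r
        rw [h4]
        exact j.commutes r
      rw [h3]
      exact Subalgebra.algebraMap_mem _ r
    | add F G hF hG => rw [map_add, map_add]; exact Subalgebra.add_mem _ hF hG
    | mul_X F i hF =>
      rw [map_mul, map_mul]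
      exact Subalgebra.mul_mem _ hF (Algebra.subset_adjoin ⟨i, rfl⟩)
  have hBint : ∀ b : B, IsIntegral (Algebra.adjoin R S) (b : K) := by
    intro b
    obtain ⟨f, hf, hf0⟩ := gint b
    let θ : MvPolynomial (Fin s) R →+* Algebra.adjoin R S :=
      (j.comp g).toRingHom.codRestrict (Algebra.adjoin R S) hSB
    refine ⟨f.map θ, hf.map _, ?_⟩
    rw [eval₂_map]
    have h3 : (algebraMap (Algebra.adjoin R S) K).comp θ = B.subtype.comp g.toRingHom := by
      ext x <;> rfl
    rw [h3]
    have h4 := hom_eval₂ f g.toRingHom B.subtype b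
    have h5 : f.eval₂ (g : MvPolynomial (Fin s) R →+* B) b = 0 := hf0
    have h6 : f.eval₂ g.toRingHom b = 0 := h5
    rw [h6, map_zero] at h4
    exact h4.symm
  have halg : Algebra.IsAlgebraic (Algebra.adjoin R S) K := by
    refine ⟨fun z => ?_⟩
    obtain ⟨a, ha, b, hb, hb0, rfl⟩ := hfr z
    exact ((hBint ⟨a, ha⟩).isAlgebraic).mul ((hBint ⟨b, hb⟩).isAlgebraic).inv
  have h3 : Algebra.trdeg R K ≤ Cardinal.mk S := Algebra.IsAlgebraic.trdeg_le_cardinalMk R S
  have h4 : Cardinal.mk S ≤ s := by
    have h5 := Cardinal.mk_range_le_lift (f := fun i : Fin s => j (g (MvPolynomial.X i)))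
    simpa using h5
  have h5 : AlgebraicIndependent R x := by
    rw [algebraicIndependent_iff]
    intro F hF
    exact hx F hF
  have h6 : (2 : Cardinal.{u}) ≤ Algebra.trdeg R K := by
    simpa using h5.lift_cardinalMk_le_trdeg
  have h7 : ((2 : ℕ) : Cardinal.{u}) ≤ (s : ℕ) := by
    simpa using h6.trans (h3.trans h4)
  have h8 : 2 ≤ s := by exact_mod_cast h7
  exact_mod_cast h8

theorem dim2_field (ρ : R →+* K) (hR : IsField ρ.range) (x : Fin 2 → K)
    (hx : ∀ F : MvPolynomial (Fin 2) R, MvPolynomial.eval₂ ρ x F = 0 →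
      MvPolynomial.map ρ F = 0) : Dim2 ρ := by
  intro T hT hfr m hm
  refine dim2_field_aux hR ρ.range.subtype x (fun F hF => ?_) hT ?_ hfr m hm
  · obtain ⟨G, rfl⟩ := MvPolynomial.map_surjective ρ.rangeRestrict ρ.rangeRestrict_surjective F
    rw [MvPolynomial.eval₂_map] at hF
    have h1 := hx G hF
    apply MvPolynomial.map_injective ρ.range.subtype Subtype.val_injective
    rw [MvPolynomial.map_map, map_zero]
    exact h1
  · change Subring.closure ((ρ.range : Set K) ∪ T) =
      Subring.closure ((ρ.range.subtype.range : Set K) ∪ T)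
    rw [Subring.range_subtype]

/-- Isolated closed points of the fibres. -/
theorem qf_of_height {R S : Type u} [CommRing R] [CommRing S] [IsDomain S] [IsNoetherianRing S]
    [Algebra R S] [Algebra.FiniteType R S] (q : Ideal S) [hq : q.IsMaximal] (hh : q.height ≤ 1)
    (hp : (q.comap (algebraMap R S)).IsMaximal) (a : R) (ha : algebraMap R S a ∈ q)
    (ha0 : algebraMap R S a ≠ 0) : Algebra.QuasiFiniteAt R q := by
  classical
  have hqp : q.IsPrime := hq.isPrime
  let q' : PrimeSpectrum S := ⟨q, hqp⟩
  have key : ∀ r : Ideal S, r.IsPrime → algebraMap R S a ∈ r → r ≤ q → r = q := by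
    intro r hr har hrq
    by_contra hne
    have hr0 : r ≠ ⊥ := by
      rintro rfl
      exact ha0 har
    have h1 : (⊥ : Ideal S) < r := bot_lt_iff_ne_bot.2 hr0
    have h2 : r < q := lt_of_le_of_ne hrq hne
    have hbp : (⊥ : Ideal S).IsPrime := Ideal.isPrime_bot
    have h3 := Ideal.height_strict_mono_of_isPrime h1
    have h4 := Ideal.height_strict_mono_of_isPrime h2
    have h5 : r.height < 1 := h4.trans_le hh
    rw [Order.lt_one_iff] at h5
    rw [h5] at h3
    exact not_lt_bot h3
  let I : Ideal S := (q.comap (algebraMap R S)).map (algebraMap R S)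
  have hIq : I ≤ q := Ideal.map_comap_le
  have hfin : (I.minimalPrimes \ {q}).Finite := (I.finite_minimalPrimes_of_isNoetherianRing).sdiff
  refine Algebra.QuasiFiniteAt.of_isOpen_singleton_fiber q' ?_
  rw [isOpen_induced_iff]
  refine ⟨⋂ r ∈ I.minimalPrimes \ {q}, (PrimeSpectrum.zeroLocus (r : Set S))ᶜ,
    hfin.isOpen_biInter fun r _ => (PrimeSpectrum.isClosed_zeroLocus _).isOpen_compl, ?_⟩
  ext ⟨x, hx⟩
  rw [Set.mem_preimage, Set.mem_singleton_iff]
  have hIx : I ≤ x.asIdeal := by
    rw [Ideal.map_le_iff_le_comap]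
    have h1 : x.asIdeal.comap (algebraMap R S) = q.comap (algebraMap R S) :=
      congrArg PrimeSpectrum.asIdeal hx
    rw [h1]
  constructor
  · intro h
    apply Subtype.ext
    apply PrimeSpectrum.ext
    change x.asIdeal = q
    obtain ⟨r, hr, hrx⟩ := Ideal.exists_minimalPrimes_le hIx
    by_cases hrq : r = q
    · rw [hrq] at hrx
      exact (hq.eq_of_le x.2.ne_top hrx).symm
    · exact absurd hrx ((Set.mem_iInter₂.1 h) r ⟨hr, hrq⟩)
  · rintro h
    have h1 : x = q' := congrArg Subtype.val h
    refine Set.mem_iInter₂.2 fun r hr hrx => hr.2 ?_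
    have h2 : r ≤ q := by
      have h3 : r ≤ x.asIdeal := hrx
      rw [h1] at h3
      exact h3
    exact key r hr.1.1.1 (hr.1.1.2 (Ideal.mem_map_of_mem _ ha)) h2

/-- Models over Jacobson domains which are not fields. -/
theorem dim2_jacobson_aux [IsJacobsonRing R] (ρ : R →+* K) (hnf : ¬ IsField ρ.range)
    (x : K) (hx : ∀ f : R[X], f.eval₂ ρ x = 0 → f.map ρ = 0) {T : Set K}
    (hT : T.Finite) {B : Subring K} (hB : B = rg ρ T) (hnoe : IsNoetherianRing B)
    (hfr : ∀ z, Fr B z) (q : Ideal B) (hq : q.IsMaximal) : 2 ≤ q.height := by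
  classical
  by_contra hcon
  have hh : q.height ≤ 1 := by
    rw [not_le] at hcon
    exact ENat.lt_two_iff.1 hcon
  let _ : Algebra R K := ρ.toAlgebra
  have hρB : ∀ a, ρ a ∈ B := fun a => by
    rw [hB]; exact Subring.subset_closure (Or.inl ⟨a, rfl⟩)
  let _ : Algebra R B := (ρ.codRestrict B hρB).toAlgebra
  have hfin : Algebra.FiniteType R (Algebra.adjoin R T) := by
    rw [← Subalgebra.fg_iff_finiteType]
    exact ⟨hT.toFinset, by rw [hT.coe_toFinset]⟩
  have hadj : (Algebra.adjoin R T).toSubring = B := by rw [hB]; exact adjoin_toSubring _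
  have hle : ∀ a : Algebra.adjoin R T, (a : K) ∈ B := fun a => by
    rw [← hadj]; exact a.2
  let ψ : Algebra.adjoin R T →ₐ[R] B :=
    { (Algebra.adjoin R T).val.toRingHom.codRestrict B hle with commutes' := fun r => rfl }
  have hsurj : Function.Surjective ψ := by
    intro b
    have hb : (b : K) ∈ Algebra.adjoin R T := by
      have h1 : (b : K) ∈ (Algebra.adjoin R T).toSubring := by
        rw [hadj]; exact b.2
      exact h1
    exact ⟨⟨b, hb⟩, rfl⟩
  have hft : Algebra.FiniteType R B := hfin.of_surjective ψ hsurj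
  let _ : Field (B ⧸ q) := Ideal.Quotient.field q
  have hmf : Module.Finite R (B ⧸ q) := finite_of_finite_type_of_isJacobsonRing R (B ⧸ q)
  have hcomap : (⊥ : Ideal (B ⧸ q)).comap (algebraMap R (B ⧸ q)) = q.comap (algebraMap R B) := by
    ext r
    rw [Ideal.mem_comap, Ideal.mem_comap, Ideal.mem_bot, IsScalarTower.algebraMap_apply R B (B ⧸ q)]
    exact Ideal.Quotient.eq_zero_iff_mem
  have hmax : (q.comap (algebraMap R B)).IsMaximal := by
    rw [← hcomap]
    exact Ideal.isMaximal_comap_of_isIntegral_of_isMaximal _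
  obtain ⟨a, ha, ha0⟩ : ∃ a : R, algebraMap R B a ∈ q ∧ algebraMap R B a ≠ 0 := by
    by_contra hcon
    push Not at hcon
    apply hnf
    have h1 : RingHom.ker ρ = q.comap (algebraMap R B) := by
      ext r
      rw [RingHom.mem_ker, Ideal.mem_comap]
      constructor
      · intro h
        have h2 : algebraMap R B r = 0 := Subtype.ext h
        rw [h2]
        exact q.zero_mem
      · intro h
        exact congrArg Subtype.val (hcon r h)
    have h2 : (RingHom.ker ρ).IsMaximal := by rw [h1]; exact hmax
    have h3 : IsField (R ⧸ RingHom.ker ρ) :=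
      (Ideal.Quotient.maximal_ideal_iff_isField_quotient _).1 h2
    exact (RingHom.quotientKerEquivRange ρ).symm.toMulEquiv.isField h3
  have hqf : Algebra.QuasiFiniteAt R q := qf_of_height q hh hmax a ha ha0
  have hbp : (⊥ : Ideal B).IsPrime := Ideal.isPrime_bot
  have hqf0 : Algebra.QuasiFiniteAt R (⊥ : Ideal B) := Algebra.QuasiFiniteAt.of_le (bot_le : ⊥ ≤ q)
  -- the field `K` is quasi-finite over `R`
  have hqK : Algebra.QuasiFinite R K := by
    have hu : ∀ y : (⊥ : Ideal B).primeCompl, IsUnit (B.subtype y) := by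
      intro y
      rw [isUnit_iff_ne_zero]
      intro h
      exact y.2 (Subtype.ext h)
    let θ : Localization.AtPrime (⊥ : Ideal B) →+* K :=
      IsLocalization.lift (M := (⊥ : Ideal B).primeCompl) hu
    let θ' : Localization.AtPrime (⊥ : Ideal B) →ₐ[R] K :=
      { θ with
        commutes' := fun r => by
          change θ (algebraMap R _ r) = _
          rw [IsScalarTower.algebraMap_apply R B (Localization.AtPrime (⊥ : Ideal B))]
          exact IsLocalization.lift_eq hu _ }
    refine Algebra.QuasiFinite.of_surjective_algHom θ' ?_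
    intro z
    obtain ⟨b, hb, c, hc, hc0, rfl⟩ := hfr z
    refine ⟨IsLocalization.mk' _ (⟨b, hb⟩ : B) (⟨⟨c, hc⟩, fun h => hc0 (congrArg Subtype.val h)⟩ :
      (⊥ : Ideal B).primeCompl), ?_⟩
    refine (IsLocalization.lift_mk'_spec _ _ _ _).2 ?_
    change b = c * (b * c⁻¹)
    field_simp
  -- the field `K` is algebraic over the image of `R`
  let A := ρ.range
  let F := FractionRing A
  have hfs : FaithfulSMul A K := (faithfulSMul_iff_algebraMap_injective _ _).2
    Subtype.val_injective
  let _ : Algebra F K := FractionRing.liftAlgebra A K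
  have hAFK : IsScalarTower A F K := FractionRing.isScalarTower_liftAlgebra A K
  let _ : Algebra R F := ((algebraMap A F).comp ρ.rangeRestrict).toAlgebra
  have hRFK : IsScalarTower R F K := by
    refine IsScalarTower.of_algebraMap_eq fun r => ?_
    change ρ r = algebraMap F K (algebraMap A F (ρ.rangeRestrict r))
    rw [← IsScalarTower.algebraMap_apply A F K]
    rfl
  have hqF : Algebra.QuasiFinite F K := Algebra.QuasiFinite.of_restrictScalars R F K
  have hfK : Module.Finite F K := Module.Finite.of_quasiFinite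
  have halg : IsAlgebraic F x := Algebra.IsAlgebraic.isAlgebraic x
  rw [← IsFractionRing.isAlgebraic_iff A F K] at halg
  obtain ⟨f, hf0, hf⟩ := halg
  obtain ⟨g, rfl⟩ := map_surjective ρ.rangeRestrict ρ.rangeRestrict_surjective f
  apply hf0
  have h1 : g.eval₂ ρ x = 0 := by
    rw [aeval_def, eval₂_map] at hf
    exact hf
  have h2 := hx g h1
  have h3 : (g.map ρ.rangeRestrict).map A.subtype = 0 := by
    rw [Polynomial.map_map]
    exact h2
  exact (Polynomial.map_eq_zero_iff Subtype.val_injective).1 h3

theorem dim2_jacobson [IsJacobsonRing R] (ρ : R →+* K) (hnf : ¬ IsField ρ.range)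
    (hNoe : ∀ T : Set K, T.Finite → IsNoetherianRing (rg ρ T)) (x : K)
    (hx : ∀ f : R[X], f.eval₂ ρ x = 0 → f.map ρ = 0) : Dim2 ρ :=
  fun T hT hfr q hq => dim2_jacobson_aux ρ hnf x hx hT rfl (hNoe T hT) hfr q hq

end Pool.Agent.K6.H44.GV
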