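import Mathlib

/-!
# The Zariski–Riemann space with the patch topology
-/

set_option autoImplicit false

universe u

namespace Pool.Agent.K6.H44.GV

open Set

variable {R K : Type u} [CommRing R] [Field K]

/-- The Zariski–Riemann space of `K` over `R`: the valuation rings of `K` which contain the image
of `R`. -/
def ZR (ρ : R →+* K) : Type u := {V : ValuationSubring K // ∀ a, ρ a ∈ V}

/-- The patch topology (constructible topology): it is generated by the sets `{V | x ∈ V}` and
`{V | x ∉ V}` for `x ∈ K`. -/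
instance (ρ : R →+* K) : TopologicalSpace (ZR ρ) :=
  TopologicalSpace.generateFrom {U | ∃ x : K, U = {V | x ∈ V.1} ∨ U = {V | x ∉ V.1}}

/-- `x` is in the maximal ideal. -/
def inM (V : ValuationSubring K) (x : K) : Prop := x = 0 ∨ x⁻¹ ∉ V

lemma inM_iff {V : ValuationSubring K} {x : K} : inM V x ↔ V.valuation x < 1 := by
  unfold inM
  by_cases h0 : x = 0
  · simp [h0]
  · rw [or_iff_right h0, ← V.valuation_le_one_iff, map_inv₀, not_le]
    exact one_lt_inv₀ (zero_lt_iff.2 ((map_ne_zero _).2 h0))

lemma inM.mem {V : ValuationSubring K} {x : K} (h : inM V x) : x ∈ V := by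
  rw [← V.valuation_le_one_iff]
  exact (inM_iff.1 h).le

lemma inM.mul_left {V : ValuationSubring K} {x y : K} (hx : x ∈ V) (h : inM V y) :
    inM V (x * y) := by
  rw [inM_iff] at h ⊢
  rw [map_mul]
  have h1 := (V.valuation_le_one_iff x).2 hx
  calc V.valuation x * V.valuation y ≤ 1 * V.valuation y := by gcongr
    _ < 1 := by rwa [one_mul]

lemma inM.add {V : ValuationSubring K} {x y : K} (hx : inM V x) (h : inM V y) :
    inM V (x + y) := by
  rw [inM_iff] at *
  exact V.valuation.map_add_lt hx h

lemma inM.neg {V : ValuationSubring K} {x : K} (hx : inM V x) : inM V (-x) := by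
  rw [inM_iff] at *
  rwa [Valuation.map_neg]

lemma inM.not_one {V : ValuationSubring K} : ¬ inM V (1 : K) := by
  rw [inM_iff, map_one]
  exact lt_irrefl _

lemma inM_coe {V : ValuationSubring K} (x : V) : inM V (x : K) ↔
    x ∈ IsLocalRing.maximalIdeal V := by
  rw [inM_iff, ← V.valuation_lt_one_iff]

/-- The basic open sets. -/
def Nb (ρ : R →+* K) (T S : Set K) : Set (ZR ρ) :=
  {V | (∀ t ∈ T, t ∈ V.1) ∧ ∀ s ∈ S, inM V.1 s}

variable {ρ : R →+* K}

lemma isOpen_mem (x : K) : IsOpen {V : ZR ρ | x ∈ V.1} :=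
  TopologicalSpace.isOpen_generateFrom_of_mem ⟨x, Or.inl rfl⟩

lemma isOpen_notMem (x : K) : IsOpen {V : ZR ρ | x ∉ V.1} :=
  TopologicalSpace.isOpen_generateFrom_of_mem ⟨x, Or.inr rfl⟩

lemma isOpen_inM (x : K) : IsOpen {V : ZR ρ | inM V.1 x} := by
  by_cases h : x = 0
  · have : {V : ZR ρ | inM V.1 x} = Set.univ := by
      ext V
      simp [inM, h]
    rw [this]
    exact isOpen_univ
  · have : {V : ZR ρ | inM V.1 x} = {V : ZR ρ | x⁻¹ ∉ V.1} := by
      ext V
      simp [inM, h]
    rw [this]
    exact isOpen_notMem _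

lemma isOpen_not_inM (x : K) : IsOpen {V : ZR ρ | ¬ inM V.1 x} := by
  by_cases h : x = 0
  · have : {V : ZR ρ | ¬ inM V.1 x} = ∅ := by
      ext V
      simp [inM, h]
    rw [this]
    exact isOpen_empty
  · have : {V : ZR ρ | ¬ inM V.1 x} = {V : ZR ρ | x⁻¹ ∈ V.1} := by
      ext V
      simp [inM, h]
    rw [this]
    exact isOpen_mem _

lemma isOpen_Nb {T S : Set K} (hT : T.Finite) (hS : S.Finite) : IsOpen (Nb ρ T S) := by
  have : Nb ρ T S = (⋂ t ∈ T, {V : ZR ρ | t ∈ V.1}) ∩ ⋂ s ∈ S, {V : ZR ρ | inM V.1 s} := by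
    ext V
    simp [Nb]
  rw [this]
  exact (hT.isOpen_biInter fun t _ => isOpen_mem t).inter
    (hS.isOpen_biInter fun s _ => isOpen_inM s)

lemma Nb_anti {T T' S S' : Set K} (hT : T ⊆ T') (hS : S ⊆ S') : Nb ρ T' S' ⊆ Nb ρ T S :=
  fun _ hV => ⟨fun t ht => hV.1 t (hT ht), fun s hs => hV.2 s (hS hs)⟩

theorem exists_Nb {U : Set (ZR ρ)} (hU : IsOpen U) {V : ZR ρ} (hV : V ∈ U) :
    ∃ T S : Set K, T.Finite ∧ S.Finite ∧ V ∈ Nb ρ T S ∧ Nb ρ T S ⊆ U := by
  have hU' : TopologicalSpace.GenerateOpen
    {U | ∃ x : K, U = {V : ZR ρ | x ∈ V.1} ∨ U = {V | x ∉ V.1}} U := hU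
  induction hU' generalizing V with
  | basic s hs =>
    obtain ⟨x, rfl | rfl⟩ := hs
    · refine ⟨{x}, ∅, Set.finite_singleton _, Set.finite_empty, ⟨fun t ht => ?_, by simp⟩,
        fun W hW => hW.1 x rfl⟩
      rw [Set.mem_singleton_iff.1 ht]
      exact hV
    · refine ⟨∅, {x⁻¹}, Set.finite_empty, Set.finite_singleton _, ⟨by simp, fun t ht => ?_⟩,
        fun W hW => ?_⟩
      · rw [Set.mem_singleton_iff.1 ht]
        refine Or.inr ?_
        rw [inv_inv]
        exact hV
      · rcases hW.2 x⁻¹ rfl with h | h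
        · exfalso
          have h0 : x = 0 := inv_eq_zero.1 h
          apply hV
          rw [h0]
          exact V.1.zero_mem
        · rw [inv_inv] at h
          exact h
  | univ => exact ⟨∅, ∅, Set.finite_empty, Set.finite_empty, ⟨by simp, by simp⟩, fun _ _ => trivial⟩
  | inter s t hs ht ih1 ih2 =>
    obtain ⟨T1, S1, h1, h2, h3, h4⟩ := ih1 hs hV.1
    obtain ⟨T2, S2, h5, h6, h7, h8⟩ := ih2 ht hV.2
    refine ⟨T1 ∪ T2, S1 ∪ S2, h1.union h5, h2.union h6, ⟨?_, ?_⟩, fun W hW => ⟨h4 ?_, h8 ?_⟩⟩
    · rintro t (ht | ht)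
      · exact h3.1 t ht
      · exact h7.1 t ht
    · rintro t (ht | ht)
      · exact h3.2 t ht
      · exact h7.2 t ht
    · exact Nb_anti Set.subset_union_left Set.subset_union_left hW
    · exact Nb_anti Set.subset_union_right Set.subset_union_right hW
  | sUnion S hS ih =>
    obtain ⟨s, hs, hVs⟩ := hV
    obtain ⟨T1, S1, h1, h2, h3, h4⟩ := ih s hs (hS s hs) hVs
    exact ⟨T1, S1, h1, h2, h3, h4.trans (Set.subset_sUnion_of_mem hs)⟩

/-- The characteristic function. -/
noncomputable def emb (ρ : R →+* K) (V : ZR ρ) (x : K) : Bool := by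
  classical exact decide (x ∈ V.1)

lemma emb_true {V : ZR ρ} {x : K} : emb ρ V x = true ↔ x ∈ V.1 := by
  unfold emb
  simp

omit [Field K] in
lemma set_eq (x : K) (b : Bool) : {f : K → Bool | f x = b} = (fun f : K → Bool => f x) ⁻¹' {b} := by
  ext f
  simp

omit [Field K] in
lemma isClosed_set (x : K) (b : Bool) : IsClosed {f : K → Bool | f x = b} := by
  rw [set_eq]
  exact (isClosed_discrete {b}).preimage (continuous_apply x)

omit [Field K] in
lemma isOpen_set (x : K) (b : Bool) : IsOpen {f : K → Bool | f x = b} := by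
  rw [set_eq]
  exact (isOpen_discrete {b}).preimage (continuous_apply x)

lemma isInducing_emb : Topology.IsInducing (emb ρ) := by
  constructor
  apply le_antisymm
  · rw [← continuous_iff_le_induced]
    refine continuous_pi fun x => ?_
    rw [continuous_discrete_rng]
    intro b
    cases b with
    | true =>
      have : (fun V : ZR ρ => emb ρ V x) ⁻¹' {true} = {V : ZR ρ | x ∈ V.1} := by
        ext V
        simp [emb_true]
      rw [this]
      exact isOpen_mem x
    | false =>
      have : (fun V : ZR ρ => emb ρ V x) ⁻¹' {false} = {V : ZR ρ | x ∉ V.1} := by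
        ext V
        rw [Set.mem_preimage, Set.mem_singleton_iff, Set.mem_ofPred_eq, ← emb_true,
          Bool.not_eq_true]
      rw [this]
      exact isOpen_notMem x
  · refine le_generateFrom ?_
    rintro U ⟨x, rfl | rfl⟩
    · refine isOpen_induced_iff.2 ⟨{f | f x = true}, ?_, ?_⟩
      · exact isOpen_set x true
      · ext V
        simp [emb_true]
    · refine isOpen_induced_iff.2 ⟨{f | f x = false}, ?_, ?_⟩
      · exact isOpen_set x false
      · ext V
        rw [Set.mem_preimage, Set.mem_ofPred_eq, Set.mem_ofPred_eq, ← emb_true, Bool.not_eq_true]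

lemma emb_injective : Function.Injective (emb ρ) := by
  intro V W h
  apply Subtype.ext
  ext x
  rw [← emb_true, ← emb_true, h]

lemma isClosed_range_emb : IsClosed (Set.range (emb ρ)) := by
  have hc : ∀ x : K, IsClosed {f : K → Bool | f x = true} := fun x => isClosed_set x true
  have ho : ∀ x : K, IsClosed {f : K → Bool | ¬ f x = true} := fun x => by
    have : {f : K → Bool | ¬ f x = true} = {f : K → Bool | f x = false} := by
      ext f; simp
    rw [this]
    exact isClosed_set x false
  have : Set.range (emb ρ) = (⋂ a, {f | f (ρ a) = true}) ∩ {f | f 0 = true} ∩ {f | f 1 = true} ∩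
      (⋂ x, {f | ¬ f x = true} ∪ {f | f (-x) = true}) ∩
      (⋂ x, ⋂ y, {f | ¬ f x = true} ∪ {f | ¬ f y = true} ∪ {f | f (x + y) = true}) ∩
      (⋂ x, ⋂ y, {f | ¬ f x = true} ∪ {f | ¬ f y = true} ∪ {f | f (x * y) = true}) ∩
      (⋂ x, {f | f x = true} ∪ {f | f x⁻¹ = true}) := by
    ext f
    constructor
    · rintro ⟨V, rfl⟩
      simp only [Set.mem_inter_iff, Set.mem_iInter, Set.mem_union, Set.mem_ofPred_eq, emb_true]
      refine ⟨⟨⟨⟨⟨⟨V.2, V.1.zero_mem⟩, V.1.one_mem⟩, fun x => ?_⟩, fun x y => ?_⟩, fun x y => ?_⟩,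
        fun x => V.1.mem_or_inv_mem x⟩
      · by_cases h : x ∈ V.1
        · exact Or.inr (V.1.neg_mem _ h)
        · exact Or.inl h
      · by_cases h : x ∈ V.1
        · by_cases h' : y ∈ V.1
          · exact Or.inr (V.1.add_mem _ _ h h')
          · exact Or.inl (Or.inr h')
        · exact Or.inl (Or.inl h)
      · by_cases h : x ∈ V.1
        · by_cases h' : y ∈ V.1
          · exact Or.inr (V.1.mul_mem _ _ h h')
          · exact Or.inl (Or.inr h')
        · exact Or.inl (Or.inl h)
    · simp only [Set.mem_inter_iff, Set.mem_iInter, Set.mem_union, Set.mem_ofPred_eq]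
      rintro ⟨⟨⟨⟨⟨⟨h1, h2⟩, h3⟩, h4⟩, h5⟩, h6⟩, h7⟩
      let V₀ : ValuationSubring K :=
        { carrier := {x | f x = true}
          mul_mem' := by
            intro x y hx hy
            rcases h6 x y with (h | h) | h
            · exact absurd hx h
            · exact absurd hy h
            · exact h
          one_mem' := h3
          add_mem' := by
            intro x y hx hy
            rcases h5 x y with (h | h) | h
            · exact absurd hx h
            · exact absurd hy h
            · exact h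
          zero_mem' := h2
          neg_mem' := by
            intro x hx
            rcases h4 x with h | h
            · exact absurd hx h
            · exact h
          mem_or_inv_mem' := h7 }
      have hmem : ∀ x, x ∈ V₀ ↔ f x = true := fun x => Iff.rfl
      let V : ZR ρ := ⟨V₀, h1⟩
      refine ⟨V, ?_⟩
      funext x
      rw [Bool.eq_iff_iff, emb_true]
      exact hmem x
  rw [this]
  refine IsClosed.inter (IsClosed.inter (IsClosed.inter (IsClosed.inter (IsClosed.inter
    (IsClosed.inter ?_ (hc 0)) (hc 1)) ?_) ?_) ?_) ?_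
  · exact isClosed_iInter fun a => hc _
  · exact isClosed_iInter fun a => (ho _).union (hc _)
  · exact isClosed_iInter fun a => isClosed_iInter fun b => ((ho _).union (ho _)).union (hc _)
  · exact isClosed_iInter fun a => isClosed_iInter fun b => ((ho _).union (ho _)).union (hc _)
  · exact isClosed_iInter fun a => (hc _).union (hc _)

lemma isClosedEmbedding_emb : Topology.IsClosedEmbedding (emb ρ) :=
  ⟨⟨isInducing_emb, emb_injective⟩, isClosed_range_emb⟩

instance : CompactSpace (ZR ρ) := isClosedEmbedding_emb.compactSpace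

instance : T2Space (ZR ρ) := isClosedEmbedding_emb.isEmbedding.t2Space

instance : BaireSpace (ZR ρ) := inferInstance

end Pool.Agent.K6.H44.GV
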