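import Pool.Agent.Y562.NN.DVR
import Pool.Agent.R187.CT.Base
import Pool.Agent.K6.H44.GV.Top

/-!
# Discrete valuation rings, composites and transcendence degrees
-/

set_option autoImplicit false
set_option linter.unusedVariables false
set_option linter.unusedSectionVars false

universe u

namespace Pool.Agent.K6.H44.GV

open IsLocalRing Pool.Agent.W418.LU2 Pool.Agent.TH188.QS Pool.Agent.R187.CT Pool.Agent.Y562.NN

/-- The map to the residue field. -/
noncomputable def rsd {A K : Type u} [CommRing A] [Field K] (V : ValuationSubring K) (σ : A →+* K)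
    (h : ∀ a, σ a ∈ V.toSubring) : A →+* ResidueField V :=
  (residue V).comp (σ.codRestrict V.toSubring h)

lemma rsd_eq_zero {A K : Type u} [CommRing A] [Field K] {V : ValuationSubring K} {σ : A →+* K}
    {h : ∀ a, σ a ∈ V.toSubring} {a : A} : rsd V σ h a = 0 ↔ inM V (σ a) := by
  have h1 : inM V (σ a) ↔ (⟨σ a, h a⟩ : V) ∈ maximalIdeal V := inM_coe (⟨σ a, h a⟩ : V)
  rw [h1, ← residue_eq_zero_iff]
  rfl

/-- `x` is in the field of fractions. -/
lemma fr_of_mem {K : Type u} [Field K] {A : Subring K} {z : K} (h : z ∈ A) : Fr A z := Fr.of_mem h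

/-- Let `𝔮` be a prime ideal of height one of a Noetherian domain `B` with fraction field `K`. There
is a discrete valuation ring of `K` which dominates the localization of `B` at `𝔮`, and its residue
field is finitely generated over `B`. -/
theorem exists_dvr2 {K : Type u} [Field K] (B : Subring K) [IsNoetherianRing B]
    (hfr : ∀ z, Fr B z) (𝔮 : Ideal B) [𝔮.IsPrime] (h0 : 𝔮 ≠ ⊥) (h1 : 𝔮.height ≤ 1) :
    ∃ (V : ValuationSubring K) (hBV : ∀ b : B, B.subtype b ∈ V.toSubring),
      IsDiscreteValuationRing V ∧ (∀ b : B, b ∈ 𝔮 ↔ inM V b) ∧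
      ∃ S : Set (ResidueField V), S.Finite ∧
        ∀ z, Fr (Subring.closure (((rsd V B.subtype hBV).range : Set (ResidueField V)) ∪ S)) z := by
  classical
  have hfrac : IsFractionRing B K := by
    refine IsFractionRing.of_field _ _ fun x => ?_
    obtain ⟨a, ha, b, hb, hb0, h1⟩ := hfr x
    exact ⟨⟨a, ha⟩, ⟨b, hb⟩, h1.trans (div_eq_mul_inv _ _).symm⟩
  let R := Localization.AtPrime 𝔮
  have hu : ∀ y : 𝔮.primeCompl, IsUnit (algebraMap B K y) := by
    intro y
    rw [isUnit_iff_ne_zero, Ne, FaithfulSMul.algebraMap_eq_zero_iff]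
    intro h
    exact y.2 (by rw [h]; exact 𝔮.zero_mem)
  let : Algebra R K := (IsLocalization.lift (M := 𝔮.primeCompl) (S := R) hu).toAlgebra
  have hBRK : IsScalarTower B R K :=
    IsScalarTower.of_algebraMap_eq' (IsLocalization.lift_comp hu).symm
  have hRK : IsFractionRing R K :=
    IsFractionRing.isFractionRing_of_isDomain_of_isLocalization 𝔮.primeCompl R K
  have hdom : IsDomain R := inferInstance
  have hdim : Ring.KrullDimLE 1 R := by
    rw [Ring.krullDimLE_iff, IsLocalization.AtPrime.ringKrullDim_eq_height 𝔮 R]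
    exact_mod_cast h1
  obtain ⟨V, hV, hloc⟩ := IsLocalRing.exists_factor_valuationRing (algebraMap R K)
  let φ : R →+* V := (algebraMap R K).codRestrict V.toSubring hV
  have hφ : IsLocalHom φ := hloc
  let : Algebra R V := φ.toAlgebra
  have hRVL : IsScalarTower R V K := IsScalarTower.of_algebraMap_eq (fun x => rfl)
  obtain ⟨hN, hfin⟩ := ka R K K V
  have hmem : ∀ b ∈ 𝔮, φ (algebraMap B R b) ∈ maximalIdeal V := by
    intro b hb
    have h2 : algebraMap B R b ∈ maximalIdeal R :=
      (IsLocalization.AtPrime.to_map_mem_maximal_iff R 𝔮 b).2 hb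
    rw [mem_maximalIdeal] at h2 ⊢
    exact map_mem_nonunits_iff φ _ |>.2 h2
  have hco : ∀ b, (φ (algebraMap B R b) : K) = algebraMap B K b := fun b =>
    (IsScalarTower.algebraMap_apply B R K b).symm
  obtain ⟨b, hb, hb0⟩ := Submodule.exists_mem_ne_zero_of_ne_bot h0
  have hc0 : algebraMap B R b ≠ 0 := by
    rw [Ne, FaithfulSMul.algebraMap_eq_zero_iff]
    exact hb0
  have hBV : ∀ b : B, B.subtype b ∈ V.toSubring := by
    intro b
    have h2 := (φ (algebraMap B R b)).2
    rw [hco] at h2
    exact h2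
  have hres : ∀ b : B, rsd V B.subtype hBV b = residue V (φ (algebraMap B R b)) := by
    intro b
    have h2 : (⟨B.subtype b, hBV b⟩ : V) = φ (algebraMap B R b) := Subtype.ext (hco b).symm
    rw [← h2]
    rfl
  refine ⟨V, hBV, ?_, ?_, ?_⟩
  · have hpid : IsPrincipalIdealRing V := IsPrincipalIdealRing.of_isNoetherianRing_of_isBezout
    refine { toIsPrincipalIdealRing := hpid, toIsLocalRing := inferInstance, not_a_field' := ?_ }
    intro h2
    have h3 := hmem b hb
    rw [h2, Ideal.mem_bot] at h3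
    have h4 := congrArg (Subtype.val) h3
    have h5 : algebraMap R K (algebraMap B R b) = 0 := h4
    rw [FaithfulSMul.algebraMap_eq_zero_iff] at h5
    exact hc0 h5
  · intro b
    constructor
    · intro hb
      have h2 := (V.valuation_lt_one_iff _).1 (hmem b hb)
      rw [hco] at h2
      exact inM_iff.2 h2
    · intro hb
      by_contra hbq
      have h2 : IsUnit (algebraMap B R b) :=
        IsLocalization.map_units R (⟨b, hbq⟩ : 𝔮.primeCompl)
      have h3 := (V.valuation_eq_one_iff _).1 (h2.map φ)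
      rw [hco] at h3
      have h4 := inM_iff.1 hb
      have h5 : V.valuation (b : K) = 1 := h3
      rw [h5] at h4
      exact lt_irrefl _ h4
  · have h2 : Module.Finite R (V ⧸ maximalIdeal V) := hfin (maximalIdeal V) _ hc0 (hmem b hb)
    obtain ⟨S, hS⟩ := h2.fg_top
    let q : (V ⧸ maximalIdeal V) → ResidueField V := fun x => x
    refine ⟨q '' (S : Set (V ⧸ maximalIdeal V)), S.finite_toSet.image _, ?_⟩
    set A := Subring.closure (((rsd V B.subtype hBV).range : Set (ResidueField V)) ∪
      q '' (S : Set (V ⧸ maximalIdeal V))) with hA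
    have h3 : ∀ r : R, residue V (φ r) ∈ fr A := by
      intro r
      obtain ⟨b, s, rfl⟩ := IsLocalization.exists_mk'_eq 𝔮.primeCompl r
      have h4 : residue V (φ (IsLocalization.mk' R b s)) * rsd V B.subtype hBV s =
          rsd V B.subtype hBV b := by
        rw [hres, hres, ← map_mul, ← map_mul, IsLocalization.mk'_spec]
      have h5 : rsd V B.subtype hBV s ≠ 0 := by
        rw [hres]
        have h6 : IsUnit (φ (algebraMap B R s)) := (IsLocalization.map_units R s).map φ
        exact (h6.map (residue V)).ne_zero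
      rw [← fr_iff]
      refine ⟨_, Subring.subset_closure (Or.inl ⟨b, rfl⟩), _,
        Subring.subset_closure (Or.inl ⟨s, rfl⟩), h5, ?_⟩
      rw [← h4, mul_inv_cancel_right₀ h5]
    have h7 : ∀ (r : R) (y : V), r • (Ideal.Quotient.mk (maximalIdeal V) y) =
        Ideal.Quotient.mk (maximalIdeal V) (φ r * y) := by
      intro r y
      rw [Algebra.smul_def, map_mul]
      rfl
    have h8 : ∀ x : V ⧸ maximalIdeal V, q x ∈ fr A := by
      intro x
      have h4 : x ∈ Submodule.span R (S : Set (V ⧸ maximalIdeal V)) := by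
        rw [hS]; trivial
      induction h4 using Submodule.span_induction with
      | mem x hx =>
        exact fr_iff.1 (Fr.of_mem (Subring.subset_closure (Or.inr (Set.mem_image_of_mem q hx))))
      | zero => exact (fr A).zero_mem
      | add x y hx hy h5 h6 => exact (fr A).add_mem h5 h6
      | smul r x hx h5 =>
        obtain ⟨y, rfl⟩ := Ideal.Quotient.mk_surjective x
        rw [h7]
        have h9 : q (Ideal.Quotient.mk (maximalIdeal V) (φ r * y)) =
            residue V (φ r) * q (Ideal.Quotient.mk (maximalIdeal V) y) := map_mul (residue V) _ _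
        rw [h9]
        exact (fr A).mul_mem (h3 r) h5
    exact fun z => fr_iff.2 (h8 z)

/-- The composite of two valuation rings. -/
def cmp {K : Type u} [Field K] (V₁ : ValuationSubring K) (W : ValuationSubring (ResidueField V₁)) :
    ValuationSubring K where
  carrier := {z | ∃ hz : z ∈ V₁, residue V₁ ⟨z, hz⟩ ∈ W}
  mul_mem' := by
    rintro x y ⟨hx, hx'⟩ ⟨hy, hy'⟩
    refine ⟨V₁.mul_mem _ _ hx hy, ?_⟩
    have : (⟨x * y, V₁.mul_mem _ _ hx hy⟩ : V₁) = ⟨x, hx⟩ * ⟨y, hy⟩ := rfl
    rw [this, map_mul]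
    exact W.mul_mem _ _ hx' hy'
  one_mem' := ⟨V₁.one_mem, by
    have : (⟨1, V₁.one_mem⟩ : V₁) = 1 := rfl
    rw [this, map_one]
    exact W.one_mem⟩
  add_mem' := by
    rintro x y ⟨hx, hx'⟩ ⟨hy, hy'⟩
    refine ⟨V₁.add_mem _ _ hx hy, ?_⟩
    have : (⟨x + y, V₁.add_mem _ _ hx hy⟩ : V₁) = ⟨x, hx⟩ + ⟨y, hy⟩ := rfl
    rw [this, map_add]
    exact W.add_mem _ _ hx' hy'
  zero_mem' := ⟨V₁.zero_mem, by
    have : (⟨0, V₁.zero_mem⟩ : V₁) = 0 := rfl
    rw [this, map_zero]
    exact W.zero_mem⟩
  neg_mem' := by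
    rintro x ⟨hx, hx'⟩
    refine ⟨V₁.neg_mem _ hx, ?_⟩
    have : (⟨-x, V₁.neg_mem _ hx⟩ : V₁) = -⟨x, hx⟩ := rfl
    rw [this, map_neg]
    exact W.neg_mem _ hx'
  mem_or_inv_mem' := by
    intro x
    by_cases h0 : x = 0
    · left
      rw [h0]
      refine ⟨V₁.zero_mem, ?_⟩
      have : (⟨0, V₁.zero_mem⟩ : V₁) = 0 := rfl
      rw [this, map_zero]
      exact W.zero_mem
    by_cases h1 : inM V₁ x
    · left
      refine ⟨h1.mem, ?_⟩
      have h2 : residue V₁ ⟨x, h1.mem⟩ = 0 := (residue_eq_zero_iff _).2 ((inM_coe _).1 h1)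
      rw [h2]
      exact W.zero_mem
    by_cases h2 : inM V₁ x⁻¹
    · right
      refine ⟨h2.mem, ?_⟩
      have h3 : residue V₁ ⟨x⁻¹, h2.mem⟩ = 0 := (residue_eq_zero_iff _).2 ((inM_coe _).1 h2)
      rw [h3]
      exact W.zero_mem
    unfold inM at h1 h2
    rw [inv_inv] at h2
    push Not at h1 h2
    have hx : x ∈ V₁ := h2.2
    have hx' : x⁻¹ ∈ V₁ := h1.2
    have h3 : residue V₁ ⟨x⁻¹, hx'⟩ = (residue V₁ ⟨x, hx⟩)⁻¹ := by
      refine eq_inv_of_mul_eq_one_left ?_
      rw [← map_mul]
      have : (⟨x⁻¹, hx'⟩ : V₁) * ⟨x, hx⟩ = 1 := Subtype.ext (inv_mul_cancel₀ h0)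
      rw [this, map_one]
    rcases W.mem_or_inv_mem (residue V₁ ⟨x, hx⟩) with h | h
    · exact Or.inl ⟨hx, h⟩
    · exact Or.inr ⟨hx', by rw [h3]; exact h⟩

lemma cmp_iff {K : Type u} [Field K] (V₁ : ValuationSubring K)
    (W : ValuationSubring (ResidueField V₁)) : Cmp (cmp V₁ W) V₁ W := fun _ => Iff.rfl

lemma inM_cmp {K : Type u} [Field K] {V₁ : ValuationSubring K}
    {W : ValuationSubring (ResidueField V₁)} {z : K} (hz : z ∈ V₁)
    (h : inM W (residue V₁ ⟨z, hz⟩)) : inM (cmp V₁ W) z := by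
  by_contra hcon
  unfold inM at hcon
  push Not at hcon
  obtain ⟨h0, h1, h2⟩ := hcon
  have h3 : residue V₁ ⟨z⁻¹, h1⟩ = (residue V₁ ⟨z, hz⟩)⁻¹ := by
    refine eq_inv_of_mul_eq_one_left ?_
    rw [← map_mul]
    have : (⟨z⁻¹, h1⟩ : V₁) * ⟨z, hz⟩ = 1 := Subtype.ext (inv_mul_cancel₀ h0)
    rw [this, map_one]
  rcases h with h | h
  · rw [h, inv_zero] at h3
    have h4 : inM V₁ z⁻¹ := (inM_coe (⟨z⁻¹, h1⟩ : V₁)).2 ((residue_eq_zero_iff _).1 h3)
    rcases h4 with h4 | h4
    · exact h0 (inv_eq_zero.1 h4)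
    · rw [inv_inv] at h4
      exact h4 hz
  · exact h (by rw [← h3]; exact h2)

/-- The inequality of Abhyankar. -/
theorem trdeg_residue {k F : Type u} [Field k] [Field F] (σ : k →+* F) (W : ValuationSubring F)
    (h : ∀ a, σ a ∈ W.toSubring) (b : F) (hb0 : b ≠ 0) (hb : inM W b) :
    @Algebra.trdeg k (ResidueField W) _ _ (rsd W σ h).toAlgebra + 1 ≤
      @Algebra.trdeg k F _ _ σ.toAlgebra := by
  classical
  let : Algebra k F := σ.toAlgebra
  let : Algebra k W := (σ.codRestrict W.toSubring h).toAlgebra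
  let : Algebra k (ResidueField W) := (rsd W σ h).toAlgebra
  let p : W →ₐ[k] ResidueField W := { residue W with commutes' := fun _ => rfl }
  let i : W →ₐ[k] F := { W.subtype with commutes' := fun _ => rfl }
  have hi : Function.Injective i := Subtype.val_injective
  obtain ⟨ι, x, hx⟩ := exists_isTranscendenceBasis' k (ResidueField W)
  choose y hy using fun j => residue_surjective (R := W) (x j)
  have hyx : p ∘ y = x := funext hy
  have hy1 : AlgebraicIndependent k y := AlgebraicIndependent.of_comp p (by rw [hyx]; exact hx.1)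
  have hy2 : AlgebraicIndependent k (i ∘ y) := hy1.map' hi
  -- the nonzero elements are units
  have hunit : ∀ a ∈ Algebra.adjoin k (Set.range (i ∘ y)), a ≠ 0 → a ∈ W ∧ ¬ inM W a := by
    intro a ha ha0
    rw [Algebra.adjoin_range_eq_range_aeval] at ha
    obtain ⟨G, rfl⟩ := ha
    have h1 : MvPolynomial.aeval (i ∘ y) G = i (MvPolynomial.aeval y G) := by
      have := MvPolynomial.comp_aeval_apply y i G
      exact this.symm
    refine ⟨by change (MvPolynomial.aeval (i ∘ y)) G ∈ W; rw [h1]; exact (MvPolynomial.aeval y G).2,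
      fun h2 => ?_⟩
    change inM W ((MvPolynomial.aeval (i ∘ y)) G) at h2
    rw [h1] at h2
    have h3 : p (MvPolynomial.aeval y G) = 0 := by
      change residue W (MvPolynomial.aeval y G) = 0
      rw [residue_eq_zero_iff, ← inM_coe]
      exact h2
    rw [MvPolynomial.comp_aeval_apply] at h3
    have h4 : MvPolynomial.aeval x G = 0 := by
      rw [← hyx]; exact h3
    have h5 := (algebraicIndependent_iff.1 hx.1) G h4
    apply ha0
    change (MvPolynomial.aeval (i ∘ y)) G = 0
    rw [h5, map_zero]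
  have htr : Transcendental (Algebra.adjoin k (Set.range (i ∘ y))) b := by
    rw [transcendental_iff]
    intro f hf
    by_contra hf0
    obtain ⟨g, hg, hgd⟩ := Polynomial.exists_eq_pow_rootMultiplicity_mul_and_not_dvd f hf0 0
    rw [hg, map_mul, map_pow, Polynomial.C_0, sub_zero, Polynomial.aeval_X] at hf
    rcases mul_eq_zero.1 hf with h1 | h1
    · exact pow_ne_zero _ hb0 h1
    · have hg0 : g.coeff 0 ≠ 0 := by
        intro h2
        apply hgd
        rw [Polynomial.C_0, sub_zero]
        exact Polynomial.X_dvd_iff.2 h2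
      have hW : ∀ q : Polynomial (Algebra.adjoin k (Set.range (i ∘ y))),
          Polynomial.aeval b q ∈ W := by
        intro q
        induction q using Polynomial.induction_on' with
        | add q r h1 h2 => rw [map_add]; exact W.add_mem _ _ h1 h2
        | monomial n a =>
          rw [Polynomial.aeval_monomial]
          refine W.mul_mem _ _ ?_ (pow_mem hb.mem n)
          by_cases ha : a = 0
          · rw [ha, map_zero]; exact W.zero_mem
          · exact (hunit a a.2 fun h => ha (Subtype.ext h)).1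
      rw [← Polynomial.divX_mul_X_add g, map_add, map_mul, Polynomial.aeval_X,
        Polynomial.aeval_C] at h1
      have h2 : ((g.coeff 0 : Algebra.adjoin k (Set.range (i ∘ y))) : F) =
          -(Polynomial.aeval b g.divX * b) := by
        rw [eq_neg_iff_add_eq_zero, add_comm]
        exact h1
      refine (hunit _ (g.coeff 0).2 fun h => hg0 (Subtype.ext h)).2 ?_
      rw [h2]
      exact (inM.mul_left (hW _) hb).neg
  have h1 := (hy2.option_iff_transcendental b).2 htr
  have h2 := h1.lift_cardinalMk_le_trdeg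
  rw [Cardinal.mk_option, Cardinal.lift_add, Cardinal.lift_one] at h2
  have h3 := hx.lift_cardinalMk_eq_trdeg
  rw [Cardinal.lift_id, Cardinal.lift_id] at h2 h3
  rw [← h3]
  exact h2

end Pool.Agent.K6.H44.GV
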