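import Pool.Agent.K6.H44.GV.Sd

/-!
# Log uniformization of generic valuations
-/

set_option autoImplicit false
set_option linter.unusedVariables false
set_option linter.unusedSectionVars false

universe u

namespace Pool.Agent.K6.H44.GV

open IsLocalRing Pool.Agent.W418.LU2 Pool.Agent.TH188.QS Pool.Agent.R187.CT
open Polynomial Topology

/-- The data of a regular model, on which the elements of `G` are monomials and the elements of `H`
are regular. -/
def Dt {K : Type u} [Field K] (V : ValuationSubring K) (A : Subring K) (U G H : Set K) : Prop :=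
  ∃ (ι : Type) (_ : Fintype ι) (x : ι → K) (g : K) (T : Set K), T.Finite ∧ U ⊆ T ∧
    (∀ t ∈ T, t ∈ V ∧ t * g ∈ A) ∧ g ∈ A ∧ g ≠ 0 ∧
    RegP V.toSubring (lo V.toSubring (Subring.closure ((A : Set K) ∪ T))) x ∧
    PMon (lo V.toSubring (Subring.closure ((A : Set K) ∪ T))) x g ∧
    (∀ h ∈ G, PMon (lo V.toSubring (Subring.closure ((A : Set K) ∪ T))) x h) ∧
    ∀ h ∈ H, h ∈ lo V.toSubring (Subring.closure ((A : Set K) ∪ T))

/-- The change of the model. -/
theorem gp_move2 {K : Type u} [Field K] {V : ValuationSubring K} {A : Subring K} {U : Set K}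
    (hU : U.Finite) (hUA : ∀ u ∈ U, u ∈ V ∧ Fr A u)
    (h : GP V (Subring.closure ((A : Set K) ∪ U))) (G H : Set K) (hGf : G.Finite)
    (hHf : H.Finite) (hG : ∀ h ∈ G, h ≠ 0 ∧ Fr A h) (hH : ∀ h ∈ H, h ∈ V ∧ Fr A h) :
    Dt V A U G H := by
  obtain ⟨b, hbA, hb0, hb⟩ := com_den hU fun u hu => (hUA u hu).2
  have hAA' : A ≤ Subring.closure ((A : Set K) ∪ U) := fun a ha =>
    Subring.subset_closure (Or.inl ha)
  obtain ⟨ι, _, x, P, g, hreg, ⟨hgA, hg0, T, hTf, hT, hP⟩, hgm, hG', hH'⟩ :=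
    h (insert b G) H (hGf.insert b) hHf (by
      rintro z (rfl | hz)
      · exact ⟨hb0, Fr.of_mem (hAA' hbA)⟩
      · exact ⟨(hG z hz).1, fr_mono hAA' (hG z hz).2⟩)
      fun z hz => ⟨(hH z hz).1, fr_mono hAA' (hH z hz).2⟩
  have key := Pool.Agent.Y67.DT.closure_pow hbA
    (U := U) fun u hu => ⟨1, by rw [pow_one]; exact hb u hu⟩
  obtain ⟨k, hk⟩ := Pool.Agent.Y67.DT.common_pow hbA key
    (Z := {g} ∪ (fun t => t * g) '' T) ((Set.finite_singleton g).union (hTf.image _)) (by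
      rintro z (hz | ⟨t, ht, rfl⟩)
      · rw [Set.mem_singleton_iff.1 hz]
        exact hgA
      · exact (hT t ht).2)
  have hPe : P = lo V.toSubring (Subring.closure ((A : Set K) ∪ (U ∪ T))) := by
    rw [hP, closure_closure_union, Set.union_assoc]
  subst hPe
  refine ⟨ι, inferInstance, x, b ^ (k + 1) * g, U ∪ T, hU.union hTf, Set.subset_union_left, ?_, ?_,
    mul_ne_zero (pow_ne_zero _ hb0) hg0, hreg, ?_, fun z hz => hG' z (Or.inr hz), hH'⟩
  · rintro t (ht | ht)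
    · refine ⟨(hUA t ht).1, ?_⟩
      have h1 : t * (b ^ (k + 1) * g) = (b * t) * (b ^ k * g) := by ring
      rw [h1]
      exact A.mul_mem (hb t ht) (hk g (Or.inl rfl))
    · refine ⟨(hT t ht).1, ?_⟩
      have h1 : t * (b ^ (k + 1) * g) = b * (b ^ k * (t * g)) := by ring
      rw [h1]
      exact A.mul_mem hbA (hk _ (Or.inr ⟨t, ht, rfl⟩))
  · have h1 : b ^ (k + 1) * g = b * (b ^ k * g) := by ring
    rw [h1]
    exact A.mul_mem hbA (hk g (Or.inl rfl))
  · exact PMon.mul hreg.ne (Pool.Agent.TH188.QS.PMon.pow hreg.ne (hG' b (Or.inl rfl)) _) hgm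

/-- The conditions that the centre `Q` of `V` on `C` is a maximal ideal, and that it is also the
centre of `V'`. -/
structure SC {K : Type u} [Field K] (V V' : ValuationSubring K) (C : Subring K) : Prop where
  le : C ≤ V'.toSubring
  cen : ∀ c ∈ C, inM V c → inM V' c
  max : ∀ c ∈ C, ¬ inM V c → ∃ c' ∈ C, inM V (c * c' - 1)

lemma SC.iff {K : Type u} [Field K] {V V' : ValuationSubring K} {C : Subring K} (h : SC V V' C)
    {c : K} (hc : c ∈ C) : inM V c ↔ inM V' c := by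
  refine ⟨h.cen c hc, fun h1 => ?_⟩
  by_contra h2
  obtain ⟨c', hc', h3⟩ := h.max c hc h2
  have h4 := h.cen _ (C.sub_mem (C.mul_mem hc hc') C.one_mem) h3
  have h5 : inM V' (c * c') := by
    rw [mul_comm]
    exact inM.mul_left (h.le hc') h1
  apply inM.not_one (V := V')
  have h6 : (1 : K) = c * c' + -(c * c' - 1) := by ring
  rw [h6]
  exact h5.add h4.neg

lemma SC.lo_eq {K : Type u} [Field K] {V V' : ValuationSubring K} {C : Subring K}
    (h : SC V V' C) : lo V'.toSubring C = lo V.toSubring C := by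
  have key : ∀ b ∈ C, (b ≠ 0 ∧ b⁻¹ ∈ V') ↔ (b ≠ 0 ∧ b⁻¹ ∈ V) := by
    intro b hb
    have h1 := h.iff hb
    unfold inM at h1
    constructor
    · rintro ⟨h0, h2⟩
      refine ⟨h0, ?_⟩
      by_contra h3
      rcases h1.1 (Or.inr h3) with h4 | h4
      · exact h0 h4
      · exact h4 h2
    · rintro ⟨h0, h2⟩
      refine ⟨h0, ?_⟩
      by_contra h3
      rcases h1.2 (Or.inr h3) with h4 | h4
      · exact h0 h4
      · exact h4 h2
  ext z
  constructor
  · rintro ⟨a, ha, b, hb, hb0, hbV, rfl⟩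
    exact ⟨a, ha, b, hb, hb0, ((key b hb).1 ⟨hb0, hbV⟩).2, rfl⟩
  · rintro ⟨a, ha, b, hb, hb0, hbV, rfl⟩
    exact ⟨a, ha, b, hb, hb0, ((key b hb).2 ⟨hb0, hbV⟩).2, rfl⟩

theorem regP_congr {K : Type u} [Field K] {A A' P P' : Subring K} (hP : P' = P) {ι : Type}
    [Fintype ι] {x : ι → K} (hreg : RegP A P x) (h1 : P' ≤ A')
    (h2 : ∀ y ∈ P', y ≠ 0 → y⁻¹ ∈ A' → y⁻¹ ∈ P') : RegP A' P' x := by
  subst hP
  exact
    { PA := h1
      ne := hreg.ne
      mem := hreg.mem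
      reg := hreg.reg
      inv := h2
      ind := hreg.ind }

/-- The data only depend on the centre. -/
theorem Dt.transfer {K : Type u} [Field K] {V V' : ValuationSubring K} {C : Subring K}
    (h : SC V V' C) {ι : Type} [Fintype ι] {x : ι → K}
    (hreg : RegP V.toSubring (lo V.toSubring C) x) :
    RegP V'.toSubring (lo V'.toSubring C) x :=
  regP_congr h.lo_eq hreg (lo_le h.le) fun y hy hy0 hyA => inv_mem_lo h.le hy hy0 hyA

/-- The ideal of the centre. -/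
def cen {K : Type u} [Field K] (V : ValuationSubring K) (B : Subring K) (h : B ≤ V.toSubring) :
    Ideal B where
  carrier := {b | inM V (b : K)}
  add_mem' := fun ha hb => inM.add ha hb
  zero_mem' := Or.inl rfl
  smul_mem' := fun c x hx => inM.mul_left (h c.2) hx

lemma mem_cen {K : Type u} [Field K] {V : ValuationSubring K} {B : Subring K}
    {h : B ≤ V.toSubring} {b : B} : b ∈ cen V B h ↔ inM V (b : K) := Iff.rfl

lemma cen_ne_top {K : Type u} [Field K] {V : ValuationSubring K} {B : Subring K}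
    {h : B ≤ V.toSubring} : cen V B h ≠ ⊤ := by
  rw [Ne, Ideal.eq_top_iff_one, mem_cen]
  exact inM.not_one

/-- If the residue field is algebraic over that of a maximal ideal of `B`, then the centres on all
larger rings are maximal. -/
theorem max_of_alg {K : Type u} [Field K] {V : ValuationSubring K} {B C : Subring K}
    (hBC : B ≤ C) (hCV : C ≤ V.toSubring) (P : Ideal B) (hP : P.IsMaximal)
    (hPV : ∀ b : B, b ∈ P → inM V b)
    (halg : ∀ z ∈ V, ∃ f : B[X], f.Monic ∧ inM V (f.eval₂ B.subtype z)) :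
    ∀ c ∈ C, ¬ inM V c → ∃ c' ∈ C, inM V (c * c' - 1) := by
  intro c hc hcM
  have hBV : ∀ b : B, B.subtype b ∈ V.toSubring := fun b => hCV (hBC b.2)
  have hCV' : ∀ b : C, C.subtype b ∈ V.toSubring := fun b => hCV b.2
  have hker : P ≤ RingHom.ker (rsd V B.subtype hBV) := fun b hb => rsd_eq_zero.2 (hPV b hb)
  let : Field (B ⧸ P) := Ideal.Quotient.field P
  let σ : (B ⧸ P) →+* ResidueField V := Ideal.Quotient.lift P (rsd V B.subtype hBV) hker
  have hσ : ∀ b : B, σ (Ideal.Quotient.mk P b) = rsd V B.subtype hBV b := fun b =>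
    Ideal.Quotient.lift_mk P _ _
  let : Algebra (B ⧸ P) (ResidueField V) := σ.toAlgebra
  let θ := rsd V C.subtype hCV'
  let A : Subalgebra (B ⧸ P) (ResidueField V) :=
    { θ.range with
      algebraMap_mem' := by
        intro r
        obtain ⟨b, rfl⟩ := Ideal.Quotient.mk_surjective r
        refine ⟨⟨b, hBC b.2⟩, ?_⟩
        change _ = σ (Ideal.Quotient.mk P b)
        rw [hσ]
        rfl }
  obtain ⟨f, hf, hfM⟩ := halg c (hCV hc)
  have hint : IsIntegral (B ⧸ P) (residue V ⟨c, hCV hc⟩) := by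
    refine ⟨f.map (Ideal.Quotient.mk P), hf.map _, ?_⟩
    obtain ⟨h4, h5⟩ := eval₂_mem hBV (hCV hc) f
    have h6 : residue V ⟨f.eval₂ B.subtype c, h4⟩ = 0 :=
      (residue_eq_zero_iff _).2 ((inM_coe _).1 hfM)
    rw [eval₂_map, ← h6]
    refine Eq.trans ?_ h5.symm
    congr 1
  have h1 : (residue V ⟨c, hCV hc⟩)⁻¹ ∈ A := by
    apply hint.inv_mem
    exact ⟨⟨c, hc⟩, rfl⟩
  obtain ⟨c', hc'⟩ := h1
  refine ⟨c', c'.2, ?_⟩
  have h2 : θ ⟨c, hc⟩ ≠ 0 := fun h => hcM (rsd_eq_zero.1 h)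
  have h3 : θ (⟨c, hc⟩ * c' - 1) = 0 := by
    rw [map_sub, map_mul, map_one]
    have h4 : θ c' = (θ ⟨c, hc⟩)⁻¹ := hc'
    rw [h4, mul_inv_cancel₀ h2, sub_self]
  exact rsd_eq_zero.1 h3

/-- Ideals in terms of generators. -/
lemma cen_gen {K : Type u} [Field K] {V : ValuationSubring K} {C : Subring K}
    (hCV : C ≤ V.toSubring) [IsNoetherianRing C] :
    ∃ S : Set K, S.Finite ∧ (∀ s ∈ S, s ∈ C ∧ inM V s) ∧
      ∀ V' : ValuationSubring K, C ≤ V'.toSubring → (∀ s ∈ S, inM V' s) →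
        ∀ c ∈ C, inM V c → inM V' c := by
  obtain ⟨G, hG⟩ := (IsNoetherian.noetherian (cen V C hCV) : (cen V C hCV).FG)
  have hG : Ideal.span (G : Set C) = cen V C hCV := hG
  refine ⟨(fun g : C => (g : K)) '' (G : Set C), G.finite_toSet.image _, ?_, ?_⟩
  · rintro _ ⟨g, hg, rfl⟩
    refine ⟨g.2, ?_⟩
    have h1 : g ∈ cen V C hCV := by rw [← hG]; exact Ideal.subset_span hg
    exact h1
  · intro V' hV' hS c hc hcM
    have h1 : Ideal.span (G : Set C) ≤ cen V' C hV' := by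
      rw [Ideal.span_le]
      intro g hg
      exact hS _ ⟨g, hg, rfl⟩
    have h2 : (⟨c, hc⟩ : C) ∈ cen V C hCV := hcM
    rw [← hG] at h2
    exact h1 h2

variable {R K : Type u} [CommRing R] [Field K] {ρ : R →+* K}

/-- A dense set of valuations with large regular models. -/
theorem exists_model_valuation (hR : HJ R) {TA : Set K} (hTA : TA.Finite)
    (hfr : ∀ z, Fr (rg ρ TA) z) {G H : Set K} (hG : G.Finite) (hH : H.Finite) (hG0 : ∀ g ∈ G, g ≠ 0)
    {T₀ S₀ : Set K} (hT₀ : T₀.Finite) (hS₀ : S₀.Finite) (V₀ : ZR ρ) (hV₀ : V₀ ∈ Nb ρ T₀ S₀)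
    (hTAV : ∀ t ∈ TA, t ∈ V₀.1) (hHV : ∀ h ∈ H, h ∈ V₀.1) :
    ∃ (V : ZR ρ) (ι : Type) (_ : Fintype ι) (x : ι → K) (g : K) (T : Set K),
      V ∈ Nb ρ T₀ S₀ ∧ T.Finite ∧ T₀ ∪ S₀ ∪ TA ∪ H ⊆ T ∧
      (∀ t ∈ T, t ∈ V.1 ∧ t * g ∈ rg ρ TA) ∧ g ∈ rg ρ TA ∧ g ≠ 0 ∧
      (∀ c ∈ rg ρ (TA ∪ T), ¬ inM V.1 c → ∃ c' ∈ rg ρ (TA ∪ T), inM V.1 (c * c' - 1)) ∧
      RegP V.1.toSubring (lo V.1.toSubring (rg ρ (TA ∪ T))) x ∧
      PMon (lo V.1.toSubring (rg ρ (TA ∪ T))) x g ∧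
      (∀ h ∈ G, PMon (lo V.1.toSubring (rg ρ (TA ∪ T))) x h) ∧
      ∀ h ∈ H, h ∈ lo V.1.toSubring (rg ρ (TA ∪ T)) := by
  classical
  let T₁ : Set K := T₀ ∪ S₀ ∪ TA ∪ H
  have hT₁ : T₁.Finite := ((hT₀.union hS₀).union hTA).union hH
  have hT₁V : ∀ t ∈ T₁, t ∈ V₀.1 := by
    rintro t (((ht | ht) | ht) | ht)
    · exact hV₀.1 t ht
    · exact (hV₀.2 t ht).mem
    · exact hTAV t ht
    · exact hHV t ht
  obtain ⟨B, hB⟩ : ∃ B : Subring K, B = rg ρ T₁ := ⟨_, rfl⟩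
  have hBV₀ : B ≤ V₀.1.toSubring := by
    rw [hB, Subring.closure_le]
    rintro z (⟨a, rfl⟩ | hz)
    · exact V₀.2 a
    · exact hT₁V z hz
  have hTAB : rg ρ TA ≤ B := by
    rw [hB]
    exact rg_mono ρ fun t ht => Or.inl (Or.inr ht)
  have hfrB : ∀ z, Fr B z := fun z => fr_mono hTAB (hfr z)
  obtain ⟨P, hP, hPle⟩ := Ideal.exists_le_maximal (cen V₀.1 B hBV₀) cen_ne_top
  obtain ⟨n, V, hSD, hBV, hPV, halg⟩ := exists_zd hR ρ hT₁ hB hfrB P hP
  have hρB : ∀ a, ρ a ∈ B := fun a => by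
    rw [hB]; exact Subring.subset_closure (Or.inl ⟨a, rfl⟩)
  have hT₁B : ∀ t ∈ T₁, t ∈ B := fun t ht => by
    rw [hB]; exact Subring.subset_closure (Or.inr ht)
  let V' : ZR ρ := ⟨V, fun a => hBV (hρB a)⟩
  have hclos : ∀ T : Set K, Subring.closure ((rg ρ TA : Set K) ∪ T) = rg ρ (TA ∪ T) := by
    intro T
    rw [closure_closure_union, Set.union_assoc]
  have hGP : GP V (Subring.closure ((rg ρ TA : Set K) ∪ T₁)) := by
    rw [hclos]
    refine gp_sd hR n V ρ hSD _ (hTA.union hT₁) ?_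
    have h1 : rg ρ (TA ∪ T₁) ≤ B := by
      rw [hB]
      refine rg_mono ρ ?_
      rintro t (ht | ht)
      · exact Or.inl (Or.inr ht)
      · exact ht
    exact h1.trans hBV
  obtain ⟨ι, _, x, g, T, hTf, hUT, hT, hg, hg0, hreg, hgm, hGm, hHm⟩ :=
    gp_move2 hT₁ (fun u hu => ⟨hBV (hT₁B u hu), hfr u⟩) hGP G H hG hH
      (fun h hh => ⟨hG0 h hh, hfr h⟩) (fun h hh => ⟨hBV (hT₁B h (Or.inr hh)), hfr h⟩)
  rw [hclos] at hreg hgm
  have hGm' : ∀ h ∈ G, PMon (lo V.toSubring (rg ρ (TA ∪ T))) x h := fun h hh => by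
    have := hGm h hh
    rwa [hclos] at this
  have hHm' : ∀ h ∈ H, h ∈ lo V.toSubring (rg ρ (TA ∪ T)) := fun h hh => by
    have := hHm h hh
    rwa [hclos] at this
  have hCV : rg ρ (TA ∪ T) ≤ V.toSubring := by
    rw [Subring.closure_le]
    rintro z (⟨a, rfl⟩ | hz | hz)
    · exact hBV (hρB a)
    · exact hBV (hT₁B z (Or.inl (Or.inr hz)))
    · exact (hT z hz).1
  have hBC : B ≤ rg ρ (TA ∪ T) := by
    rw [hB]
    exact rg_mono ρ fun t ht => Or.inr (hUT ht)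
  refine ⟨V', ι, inferInstance, x, g, T, ⟨fun t ht => ?_, fun s hs => ?_⟩, hTf, hUT, hT, hg, hg0,
    max_of_alg hBC hCV P hP hPV halg, hreg, hgm, hGm', hHm'⟩
  · exact hBV (hT₁B t (Or.inl (Or.inl (Or.inl ht))))
  · have h1 : s ∈ T₁ := Or.inl (Or.inl (Or.inr hs))
    have h2 : (⟨s, hT₁B s h1⟩ : B) ∈ cen V₀.1 B hBV₀ := hV₀.2 s hs
    exact hPV _ (hPle h2)

/-- The valuations with a good model for given finite sets contain a dense open set. -/
theorem dense_interior (hR : HJ R) {TA : Set K} (hTA : TA.Finite) (hfr : ∀ z, Fr (rg ρ TA) z)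
    {G H : Set K} (hG : G.Finite) (hH : H.Finite) (hG0 : ∀ g ∈ G, g ≠ 0) :
    Dense (interior {V : ZR ρ | rg ρ TA ≤ V.1.toSubring → (∀ h ∈ H, h ∈ V.1) →
      Dt V.1 (rg ρ TA) ∅ G H}) := by
  classical
  rw [dense_iff_inter_open]
  rintro O hO ⟨V₀, hV₀O⟩
  by_cases hcase : (∀ t ∈ TA, t ∈ V₀.1) ∧ ∀ h ∈ H, h ∈ V₀.1
  · obtain ⟨hTAV, hHV⟩ := hcase
    obtain ⟨T₀, S₀, hT₀, hS₀, hV₀, hNO⟩ := exists_Nb hO hV₀O
    obtain ⟨V, ι, _, x, g, T, hVN, hTf, hUT, hT, hg, hg0, hmax, hreg, hgm, hGm, hHm⟩ :=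
      exists_model_valuation hR hTA hfr hG hH hG0 hT₀ hS₀ V₀ hV₀ hTAV hHV
    refine ⟨V, hNO hVN, ?_⟩
    have hCV : rg ρ (TA ∪ T) ≤ V.1.toSubring := by
      rw [Subring.closure_le]
      rintro z (⟨a, rfl⟩ | hz | hz)
      · exact V.2 a
      · exact (hT z (hUT (Or.inl (Or.inr hz)))).1
      · exact (hT z hz).1
    have hnoe : IsNoetherianRing (rg ρ (TA ∪ T)) := noe_rg hR ρ (hTA.union hTf)
    obtain ⟨S, hS, hSV, hSV'⟩ := cen_gen hCV
    rw [mem_interior]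
    refine ⟨Nb ρ (TA ∪ T) S, ?_, isOpen_Nb (hTA.union hTf) hS, ?_, fun s hs => (hSV s hs).2⟩
    · rintro V' ⟨hV'1, hV'2⟩ hAV' hHV'
      have hCV' : rg ρ (TA ∪ T) ≤ V'.1.toSubring := by
        rw [Subring.closure_le]
        rintro z (⟨a, rfl⟩ | hz)
        · exact V'.2 a
        · exact hV'1 z hz
      have hSC : SC V.1 V'.1 (rg ρ (TA ∪ T)) :=
        ⟨hCV', fun c hc hcM => hSV' V'.1 hCV' hV'2 c hc hcM, hmax⟩
      have hclos : Subring.closure ((rg ρ TA : Set K) ∪ T) = rg ρ (TA ∪ T) := by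
        rw [closure_closure_union, Set.union_assoc]
      have hreg' := Dt.transfer hSC hreg
      refine ⟨ι, inferInstance, x, g, T, hTf, Set.empty_subset _, fun t ht =>
        ⟨hV'1 t (Or.inr ht), (hT t ht).2⟩, hg, hg0, ?_, ?_, ?_, ?_⟩
      · rw [hclos]
        exact hreg'
      · rw [hclos, hSC.lo_eq]
        exact hgm
      · rw [hclos, hSC.lo_eq]
        exact hGm
      · rw [hclos, hSC.lo_eq]
        exact hHm
    · rintro t (ht | ht)
      · exact (hT t (hUT (Or.inl (Or.inr ht)))).1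
      · exact (hT t ht).1
  · refine ⟨V₀, hV₀O, ?_⟩
    rw [mem_interior]
    have hcase' : (∃ t ∈ TA, t ∉ V₀.1) ∨ ∃ h ∈ H, h ∉ V₀.1 := by
      by_contra hcon
      push Not at hcon
      exact hcase hcon
    rcases hcase' with ⟨t, ht, htV⟩ | ⟨h, hh, hhV⟩
    · refine ⟨{V | t ∉ V.1}, fun V hV hAV => ?_, isOpen_notMem t, htV⟩
      exact absurd (hAV (Subring.subset_closure (Or.inr ht))) hV
    · refine ⟨{V | h ∉ V.1}, fun V hV _ hHV => ?_, isOpen_notMem h, hhV⟩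
      exact absurd (hHV h hh) hV

/-- Generic valuations are log uniformizable on all models. -/
theorem generic_lu (hR : HJ R) [Countable K] : ∀ᶠ V in residual (ZR ρ), ∀ T : Set K, T.Finite →
    (∀ z, Fr (rg ρ T) z) → rg ρ T ≤ V.1.toSubring → GP V.1 (rg ρ T) := by
  classical
  let I := {i : Finset K × Finset K × Finset K // (∀ z, Fr (rg ρ (i.1 : Set K)) z) ∧
    ∀ g ∈ i.2.1, g ≠ 0}
  have h1 : ∀ i : I, ∀ᶠ V in residual (ZR ρ), rg ρ (i.1.1 : Set K) ≤ V.1.toSubring →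
      (∀ h ∈ (i.1.2.2 : Set K), h ∈ V.1) →
      Dt V.1 (rg ρ (i.1.1 : Set K)) ∅ (i.1.2.1 : Set K) (i.1.2.2 : Set K) := by
    intro i
    have h2 := dense_interior (ρ := ρ) hR (i.1.1.finite_toSet) i.2.1 (i.1.2.1.finite_toSet)
      (i.1.2.2.finite_toSet) i.2.2
    have h3 := residual_of_dense_open isOpen_interior h2
    exact Filter.mem_of_superset h3 interior_subset
  have hI : Countable I := inferInstance
  rw [← eventually_countable_forall] at h1
  filter_upwards [h1] with V hV T hT hfr hTV G H hG hH hG0 hH0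
  obtain ⟨ι, _, x, g, T', hT', -, hT'2, hg, hg0, hreg, hgm, hGm, hHm⟩ :=
    hV ⟨(hT.toFinset, hG.toFinset, hH.toFinset), by
      refine ⟨?_, ?_⟩
      · rw [hT.coe_toFinset]; exact hfr
      · intro g hg
        exact (hG0 g (hG.mem_toFinset.1 hg)).1⟩ (by
      change rg ρ ((hT.toFinset : Finset K) : Set K) ≤ _
      rw [hT.coe_toFinset]; exact hTV) (by
      intro h hh
      exact (hH0 h (hH.mem_toFinset.1 hh)).1)
  simp only [hT.coe_toFinset] at hT'2 hg hreg hgm hGm hHm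
  refine ⟨ι, inferInstance, x, _, g, hreg, ⟨hg, hg0, T', hT', hT'2, rfl⟩, hgm, fun h hh => ?_,
    fun h hh => ?_⟩
  · exact hGm h (by rw [hG.coe_toFinset]; exact hh)
  · exact hHm h (by rw [hH.coe_toFinset]; exact hh)

end Pool.Agent.K6.H44.GV
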