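import Pool.Agent.K6.H44.GV.Curve2

/-!
# Properties of generic valuations
-/

set_option autoImplicit false
set_option linter.unusedVariables false
set_option linter.unusedSectionVars false

universe u

namespace Pool.Agent.K6.H44.GV

open IsLocalRing Pool.Agent.W418.LU2 Pool.Agent.TH188.QS Pool.Agent.R187.CT
open Polynomial Topology

variable {R K : Type u} [CommRing R] [Field K]

/-- The maximal ideals of the models have height at least two. -/
def Dim2 (ρ : R →+* K) : Prop := ∀ T : Set K, T.Finite → (∀ z, Fr (rg ρ T) z) →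
  ∀ P : Ideal (rg ρ T), P.IsMaximal → 2 ≤ P.height

variable {ρ : R →+* K}

/-- Near a given valuation there is a regular local ring of dimension at least two such that all
valuations which are centred at it are near the given one. -/
theorem exists_local (hR : HJ R) (hK : ∃ S : Set K, S.Finite ∧ ∀ z, Fr (rg ρ S) z)
    (hdim : Dim2 ρ) {G H : Set K} (hG : G.Finite) (hH : H.Finite) (hG0 : ∀ g ∈ G, g ≠ 0)
    {O : Set (ZR ρ)} (hO : IsOpen O) {V₀ : ZR ρ} (hV₀ : V₀ ∈ O) (hHV : ∀ h ∈ H, h ∈ V₀.1) :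
    ∃ (P : Subring K) (_ : IsRegularLocalRing P) (d : ℕ) (y : Fin (d + 2) → P),
      Ideal.span (Set.range y) = maximalIdeal P ∧ ringKrullDim P = ((d + 2 : ℕ) : WithBot ℕ∞) ∧
      (∀ h ∈ H, h ∈ P) ∧
      (∀ g ∈ G, ∃ (u : K) (e : Fin (d + 2) → ℤ), u ≠ 0 ∧ u ∈ P ∧ u⁻¹ ∈ P ∧
        g = u * ∏ j, (y j : K) ^ e j) ∧
      ∀ V : ValuationSubring K, P ≤ V.toSubring → (∀ p : P, p ∈ maximalIdeal P → inM V p) →
        ∃ W : ZR ρ, W.1 = V ∧ W ∈ O := by
  classical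
  obtain ⟨T₀, S₀, hT₀, hS₀, hV₀N, hNO⟩ := exists_Nb hO hV₀
  obtain ⟨TA, hTA, hTAV, hfr⟩ := exists_model ρ V₀.1 V₀.2 hK
  obtain ⟨V, ι, _, x, g, T, hVN, hTf, hUT, hT, hg, hg0, hmax, hreg, hgm, hGm, hHm⟩ :=
    exists_model_valuation hR hTA hfr hG hH hG0 hT₀ hS₀ V₀ hV₀N
      (fun t ht => hTAV (Subring.subset_closure (Or.inr ht))) hHV
  obtain ⟨C, hC⟩ : ∃ C : Subring K, C = rg ρ (TA ∪ T) := ⟨_, rfl⟩
  rw [← hC] at hmax hreg hgm hGm hHm
  have hCV : C ≤ V.1.toSubring := by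
    rw [hC, Subring.closure_le]
    rintro z (⟨a, rfl⟩ | hz | hz)
    · exact V.2 a
    · exact (hT z (hUT (Or.inl (Or.inr hz)))).1
    · exact (hT z hz).1
  have hfrC : ∀ z, Fr C z := fun z => by
    rw [hC]
    exact fr_mono (rg_mono ρ Set.subset_union_left) (hfr z)
  obtain ⟨p, hp, hpm, hph⟩ := lo_loc (loc_V V.1) hCV
  have hNU : ∀ b : K, NU V.1.toSubring b ↔ inM V.1 b := by
    intro b
    rw [inM_iff]
    exact nu_iff
  have hpmax : p.IsMaximal := by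
    rw [Ideal.isMaximal_iff]
    refine ⟨fun h => ?_, ?_⟩
    · have h1 := (hNU _).1 ((hpm _).1 h)
      exact inM.not_one h1
    · intro J c hpJ hcp hcJ
      have h1 : ¬ inM V.1 (c : K) := fun h => hcp ((hpm _).2 ((hNU _).2 h))
      obtain ⟨c', hc', h2⟩ := hmax c c.2 h1
      have h3 : c * ⟨c', hc'⟩ - 1 ∈ p := (hpm _).2 ((hNU _).2 h2)
      have h4 := J.sub_mem (J.mul_mem_right ⟨c', hc'⟩ hcJ) (hpJ h3)
      rwa [sub_sub_cancel] at h4
  have hheight : 2 ≤ p.height := by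
    subst hC
    exact hdim _ (hTA.union hTf) hfrC p hpmax
  have hdimP : 2 ≤ ringKrullDim (lo V.1.toSubring C) := by
    rw [hph]
    have h1 : ((2 : ℕ∞) : WithBot ℕ∞) ≤ (p.height : WithBot ℕ∞) := WithBot.coe_le_coe.2 hheight
    exact h1
  obtain ⟨hregP, d, y, hy, hd, hmon⟩ := full_system hreg hdimP
  have hTC : ∀ t ∈ T, t ∈ C := fun t ht => by
    rw [hC]; exact Subring.subset_closure (Or.inr (Or.inr ht))
  refine ⟨lo V.1.toSubring C, hregP, d, y, hy, hd, hHm, fun g hg => hmon g (hGm g hg), ?_⟩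
  intro V' hPV' hmV'
  refine ⟨⟨V', fun a => hPV' (le_lo _ _ ?_)⟩, rfl, hNO ⟨fun t ht => hPV' (le_lo _ _ ?_),
    fun s hs => ?_⟩⟩
  · rw [hC]
    exact Subring.subset_closure (Or.inl ⟨a, rfl⟩)
  · exact hTC t (hUT (Or.inl (Or.inl (Or.inl ht))))
  · have hsC : s ∈ C := hTC s (hUT (Or.inl (Or.inl (Or.inr hs))))
    have hsP : s ∈ lo V.1.toSubring C := le_lo _ _ hsC
    have hsM : inM V.1 s := hVN.2 s hs
    refine hmV' ⟨s, hsP⟩ ?_
    rw [mem_maximalIdeal, mem_nonunits_iff, hreg.isUnit]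
    rintro ⟨h1, h2⟩
    rcases hsM with h3 | h3
    · exact h1 h3
    · exact h3 h2

/-- The valuations for which two given elements are powers, up to units, of an element of the
maximal ideal. -/
theorem dense_cyclic (hR : HJ R) (hK : ∃ S : Set K, S.Finite ∧ ∀ z, Fr (rg ρ S) z)
    (hdim : Dim2 ρ) (x y : K) (hx : x ≠ 0) (hy : y ≠ 0) :
    ∃ U : Set (ZR ρ), IsOpen U ∧ Dense U ∧ ∀ V ∈ U, ∃ (w : K) (a b : ℤ), w ≠ 0 ∧ inM V.1 w ∧
      V.1.valuation x = V.1.valuation (w ^ a) ∧ V.1.valuation y = V.1.valuation (w ^ b) := by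
  classical
  refine ⟨⋃ w : {w : K // w ≠ 0}, ⋃ a : ℤ, ⋃ b : ℤ, {V : ZR ρ | inM V.1 w.1} ∩
    ({V | x * (w.1 ^ a)⁻¹ ∈ V.1} ∩ {V | x⁻¹ * w.1 ^ a ∈ V.1} ∩
    ({V | y * (w.1 ^ b)⁻¹ ∈ V.1} ∩ {V | y⁻¹ * w.1 ^ b ∈ V.1})), ?_, ?_, ?_⟩
  · refine isOpen_iUnion fun w => isOpen_iUnion fun a => isOpen_iUnion fun b => ?_
    exact (isOpen_inM _).inter (((isOpen_mem _).inter (isOpen_mem _)).inter
      ((isOpen_mem _).inter (isOpen_mem _)))
  · rw [dense_iff_inter_open]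
    rintro O hO ⟨V₀, hV₀⟩
    obtain ⟨P, hP, d, t, ht, hd, -, hmon, hV⟩ := exists_local hR hK hdim (G := {x, y}) (H := ∅)
      (Set.toFinite _) Set.finite_empty (by
        rintro g (rfl | hg)
        · exact hx
        · rw [Set.mem_singleton_iff.1 hg]
          exact hy) hO hV₀ (by simp)
    obtain ⟨V, hPV, hmV, h0, hval⟩ := exists_equal ht hd
    obtain ⟨W, rfl, hWO⟩ := hV V hPV hmV
    refine ⟨W, hWO, ?_⟩
    have key : ∀ g : K, g ≠ 0 → (∃ (u : K) (e : Fin (d + 2) → ℤ), u ≠ 0 ∧ u ∈ P ∧ u⁻¹ ∈ P ∧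
        g = u * ∏ j, (t j : K) ^ e j) → ∃ a : ℤ, g * ((t 0 : K) ^ a)⁻¹ ∈ W.1 ∧
          g⁻¹ * (t 0 : K) ^ a ∈ W.1 := by
      rintro g hg0 ⟨u, e, u0, u1, u2, rfl⟩
      have h1 : W.1.valuation u = 1 := by
        apply le_antisymm
        · exact (W.1.valuation_le_one_iff _).2 (hPV u1)
        · have h2 := (W.1.valuation_le_one_iff _).2 (hPV u2)
          rw [map_inv₀] at h2
          exact (inv_le_one₀ (zero_lt_iff.2 ((_root_.map_ne_zero _).2 u0))).1 h2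
      have h3 : W.1.valuation (u * ∏ j, (t j : K) ^ e j) = W.1.valuation ((t 0 : K) ^ ∑ j, e j) := by
        rw [map_mul, h1, one_mul, map_prod, map_zpow₀]
        simp only [map_zpow₀, hval]
        rw [prod_zpow' ((_root_.map_ne_zero _).2 h0)]
      refine ⟨∑ j, e j, ?_, ?_⟩
      · rw [← W.1.valuation_le_one_iff, map_mul, h3, map_inv₀,
          mul_inv_cancel₀ ((_root_.map_ne_zero _).2 (zpow_ne_zero _ h0))]
      · rw [← W.1.valuation_le_one_iff, map_mul, map_inv₀, h3,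
          inv_mul_cancel₀ ((_root_.map_ne_zero _).2 (zpow_ne_zero _ h0))]
    obtain ⟨a, ha1, ha2⟩ := key x hx (hmon x (Or.inl rfl))
    obtain ⟨b, hb1, hb2⟩ := key y hy (hmon y (Or.inr rfl))
    refine Set.mem_iUnion.2 ⟨⟨(t 0 : K), h0⟩, Set.mem_iUnion.2 ⟨a, Set.mem_iUnion.2 ⟨b,
      hmV _ (by rw [← ht]; exact Ideal.subset_span ⟨0, rfl⟩), ⟨ha1, ha2⟩, hb1, hb2⟩⟩⟩
  · intro V hV
    obtain ⟨w, hV⟩ := Set.mem_iUnion.1 hV
    obtain ⟨a, hV⟩ := Set.mem_iUnion.1 hV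
    obtain ⟨b, h1, ⟨h2, h3⟩, h4, h5⟩ := Set.mem_iUnion.1 hV
    have key : ∀ g h : K, g ≠ 0 → h ≠ 0 → g * h⁻¹ ∈ V.1 → g⁻¹ * h ∈ V.1 →
        V.1.valuation g = V.1.valuation h := by
      intro g h hg hh h6 h7
      rw [← V.1.valuation_le_one_iff, map_mul, map_inv₀] at h6 h7
      apply le_antisymm
      · have h8 : 0 < V.1.valuation h := zero_lt_iff.2 ((_root_.map_ne_zero _).2 hh)
        rwa [← div_eq_mul_inv, div_le_one₀ h8] at h6
      · have h8 : 0 < V.1.valuation g := zero_lt_iff.2 ((_root_.map_ne_zero _).2 hg)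
        rwa [mul_comm, ← div_eq_mul_inv, div_le_one₀ h8] at h7
    exact ⟨w.1, a, b, w.2, h1, key _ _ hx (zpow_ne_zero _ w.2) h2 h3,
      key _ _ hy (zpow_ne_zero _ w.2) h4 h5⟩

/-- Common denominators. -/
lemma exists_den (V : ValuationSubring K) {S : Set K} (hS : S.Finite) :
    ∃ δ : K, δ ≠ 0 ∧ δ ∈ V ∧ ∀ s ∈ S, δ * s ∈ V := by
  induction S, hS using Set.Finite.induction_on with
  | empty => exact ⟨1, one_ne_zero, V.one_mem, by simp⟩
  | @insert a S _ _ ih =>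
    obtain ⟨δ, h0, h1, h2⟩ := ih
    by_cases ha : a ∈ V
    · refine ⟨δ, h0, h1, ?_⟩
      rintro s (rfl | hs)
      · exact V.mul_mem _ _ h1 ha
      · exact h2 s hs
    · have ha0 : a ≠ 0 := fun h => ha (h ▸ V.zero_mem)
      have ha' : a⁻¹ ∈ V := (V.mem_or_inv_mem a).resolve_left ha
      refine ⟨δ * a⁻¹, mul_ne_zero h0 (inv_ne_zero ha0), V.mul_mem _ _ h1 ha', ?_⟩
      rintro s (rfl | hs)
      · rw [inv_mul_cancel_right₀ ha0]
        exact h1
      · have h3 : δ * a⁻¹ * s = a⁻¹ * (δ * s) := by ring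
        rw [h3]
        exact V.mul_mem _ _ ha' (h2 s hs)

lemma aux_pow {δ a b : K} (hδ : δ ≠ 0) {i n : ℕ} (hi : i ≤ n) :
    δ ^ (n - i) * a * b ^ i = δ ^ n * (a * (b / δ) ^ i) := by
  obtain ⟨k, rfl⟩ := Nat.exists_eq_add_of_le hi
  rw [Nat.add_sub_cancel_left, div_pow, pow_add]
  field_simp

/-- The valuations for which a given monic polynomial has a root up to a given precision. -/
theorem dense_approx (hR : HJ R) (hK : ∃ S : Set K, S.Finite ∧ ∀ z, Fr (rg ρ S) z)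
    (hdim : Dim2 ρ) (f : K[X]) (hf : f.Monic) (hf1 : 1 ≤ f.natDegree) (c : K) (hc : c ≠ 0) :
    ∃ U : Set (ZR ρ), IsOpen U ∧ Dense U ∧ ∀ V ∈ U, ∃ b : K, inM V.1 (f.eval b / c) := by
  classical
  refine ⟨⋃ b : K, {V : ZR ρ | inM V.1 (f.eval b / c)}, isOpen_iUnion fun b => isOpen_inM _, ?_,
    fun V hV => Set.mem_iUnion.1 hV⟩
  rw [dense_iff_inter_open]
  rintro O hO ⟨V₀, hV₀⟩
  set n := f.natDegree with hn
  obtain ⟨δ, hδ0, hδV, hδ⟩ := exists_den V₀.1 (S := f.coeff '' (Set.Iio n))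
    ((Set.finite_Iio n).image _)
  have hco : ∀ i, i < n → δ ^ (n - i) * f.coeff i ∈ V₀.1 := by
    intro i hi
    obtain ⟨k, hk⟩ : ∃ k, n - i = k + 1 := ⟨n - i - 1, by omega⟩
    rw [hk, pow_succ, mul_assoc]
    exact V₀.1.mul_mem _ _ (pow_mem hδV k) (hδ _ ⟨i, hi, rfl⟩)
  let H : Set K := (fun i => δ ^ (n - i) * f.coeff i) '' (Set.Iio n)
  obtain ⟨P, hP, d, t, ht, hd, hHP, hmon, hV⟩ := exists_local hR hK hdim
    (G := {c * δ ^ n}) (H := H) (Set.toFinite _) ((Set.finite_Iio n).image _) (by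
      intro g hg
      rw [Set.mem_singleton_iff.1 hg]
      exact mul_ne_zero hc (pow_ne_zero _ hδ0)) hO hV₀ (by
      rintro _ ⟨i, hi, rfl⟩
      exact hco i hi)
  obtain ⟨u, e, u0, u1, u2, hce⟩ := hmon _ rfl
  -- the polynomial over `P`
  have hgP : ∀ i, i < n → δ ^ (n - i) * f.coeff i ∈ P := fun i hi => hHP _ ⟨i, hi, rfl⟩
  let q : P[X] := ∑ i ∈ (Finset.range n).attach,
    C (⟨δ ^ (n - i.1) * f.coeff i.1, hgP i.1 (Finset.mem_range.1 i.2)⟩ : P) * X ^ i.1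
  have hqd : q.degree < n := by
    refine lt_of_le_of_lt (degree_sum_le _ _) ?_
    rw [Finset.sup_lt_iff (by exact_mod_cast WithBot.bot_lt_coe n)]
    intro i _
    refine lt_of_le_of_lt (degree_C_mul_X_pow_le _ _) ?_
    exact_mod_cast Finset.mem_range.1 i.2
  let g : P[X] := X ^ n + q
  have hg : g.Monic := monic_X_pow_add hqd
  have hgn : g.natDegree = n := by
    change (X ^ n + q).natDegree = n
    rw [natDegree_add_eq_left_of_degree_lt, natDegree_X_pow]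
    rwa [degree_X_pow]
  have hev : ∀ b : K, g.eval₂ P.subtype b = δ ^ n * f.eval (b / δ) := by
    intro b
    change (X ^ n + q).eval₂ P.subtype b = _
    rw [eval₂_add, eval₂_X_pow, eval_eq_sum_range, Finset.sum_range_succ, hf.coeff_natDegree,
      one_mul, mul_add, div_pow, mul_div_cancel₀ _ (pow_ne_zero _ hδ0), add_comm]
    congr 1
    change (∑ i ∈ (Finset.range n).attach, _ : P[X]).eval₂ P.subtype b = _
    rw [eval₂_finsetSum, Finset.mul_sum, ← Finset.sum_attach (Finset.range f.natDegree)]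
    refine Finset.sum_congr rfl fun i _ => ?_
    have hi := Finset.mem_range.1 i.2
    rw [eval₂_mul, eval₂_C, eval₂_X_pow]
    change δ ^ (n - i.1) * f.coeff i.1 * b ^ i.1 = δ ^ n * (f.coeff i.1 * (b / δ) ^ i.1)
    exact aux_pow hδ0 hi.le
  obtain ⟨V, hPV, hmV, b, hb⟩ := exists_approx ht hd g hg (by rw [hgn]; exact hf1) e
  obtain ⟨W, rfl, hWO⟩ := hV V hPV hmV
  refine ⟨W, hWO, Set.mem_iUnion.2 ⟨b / δ, ?_⟩⟩
  change inM W.1 (f.eval (b / δ) / c)
  have h1 : f.eval (b / δ) / c = u⁻¹ * (g.eval₂ P.subtype b / ∏ j, (t j : K) ^ e j) := by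
    have h2 : ∏ j, (t j : K) ^ e j ≠ 0 := by
      intro h
      rw [h, mul_zero] at hce
      exact mul_ne_zero hc (pow_ne_zero _ hδ0) hce
    rw [hev, ← div_div_eq_mul_div, ]
    have h3 : c = u * (∏ j, (t j : K) ^ e j) / δ ^ n := by
      rw [← hce, mul_div_cancel_right₀ _ (pow_ne_zero _ hδ0)]
    rw [h3]
    field_simp
  rw [h1]
  exact inM.mul_left (hPV u2) hb

/-- The valuations for which the residue of a given element is integral over the base. -/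
theorem dense_integral [IsJacobsonRing R] (z : K) :
    ∃ U : Set (ZR ρ), IsOpen U ∧ Dense U ∧ ∀ V ∈ U, z ∈ V.1 →
      ∃ f : R[X], f.Monic ∧ inM V.1 (f.eval₂ ρ z) := by
  classical
  refine ⟨{V | z ∉ V.1} ∪ ⋃ f : {f : R[X] // f.Monic}, {V : ZR ρ | inM V.1 (f.1.eval₂ ρ z)},
    (isOpen_notMem _).union (isOpen_iUnion fun f => isOpen_inM _), ?_, ?_⟩
  · rw [dense_iff_inter_open]
    rintro O hO ⟨V₀, hV₀⟩
    by_cases hz : z ∈ V₀.1
    · obtain ⟨T₀, S₀, hT₀, hS₀, hV₀N, hNO⟩ := exists_Nb hO hV₀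
      let B := rg ρ (T₀ ∪ S₀ ∪ {z})
      have hBV₀ : B ≤ V₀.1.toSubring := by
        rw [Subring.closure_le]
        rintro t (⟨a, rfl⟩ | (ht | ht) | ht)
        · exact V₀.2 a
        · exact hV₀N.1 t ht
        · exact (hV₀N.2 t ht).mem
        · rw [Set.mem_singleton_iff.1 ht]
          exact hz
      obtain ⟨P, hP, hPle⟩ := Ideal.exists_le_maximal (cen V₀.1 B hBV₀) cen_ne_top
      obtain ⟨V, hBV, hPV⟩ := exists_center B P
      have hρB : ∀ a, ρ a ∈ B := fun a => Subring.subset_closure (Or.inl ⟨a, rfl⟩)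
      have hzB : z ∈ B := Subring.subset_closure (Or.inr (Or.inr rfl))
      let : Field (B ⧸ P) := Ideal.Quotient.field P
      let : Algebra R K := ρ.toAlgebra
      have hfin : Algebra.FiniteType R (Algebra.adjoin R (T₀ ∪ S₀ ∪ {z})) := by
        rw [← Subalgebra.fg_iff_finiteType]
        exact ⟨((hT₀.union hS₀).union (Set.finite_singleton z)).toFinset, by
          rw [Set.Finite.coe_toFinset]⟩
      have hB : (Algebra.adjoin R (T₀ ∪ S₀ ∪ {z})).toSubring = B := adjoin_toSubring _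
      have hle : ∀ a : Algebra.adjoin R (T₀ ∪ S₀ ∪ {z}), (a : K) ∈ B := fun a => by
        rw [← hB]; exact a.2
      let ψ : Algebra.adjoin R (T₀ ∪ S₀ ∪ {z}) →+* B ⧸ P :=
        (Ideal.Quotient.mk P).comp
          ((Algebra.adjoin R (T₀ ∪ S₀ ∪ {z})).val.toRingHom.codRestrict B hle)
      let σ : R →+* B ⧸ P := (Ideal.Quotient.mk P).comp (ρ.codRestrict B hρB)
      let : Algebra R (B ⧸ P) := σ.toAlgebra
      let ψ' : Algebra.adjoin R (T₀ ∪ S₀ ∪ {z}) →ₐ[R] B ⧸ P :=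
        { ψ with commutes' := fun r => rfl }
      have hsurj : Function.Surjective ψ' := by
        intro q
        obtain ⟨b, rfl⟩ := Ideal.Quotient.mk_surjective q
        have hb : (b : K) ∈ Algebra.adjoin R (T₀ ∪ S₀ ∪ {z}) := by
          have h1 : (b : K) ∈ (Algebra.adjoin R (T₀ ∪ S₀ ∪ {z})).toSubring := by
            rw [hB]; exact b.2
          exact h1
        exact ⟨⟨b, hb⟩, rfl⟩
      have hft : Algebra.FiniteType R (B ⧸ P) := hfin.of_surjective ψ' hsurj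
      have hmf : Module.Finite R (B ⧸ P) := finite_of_finite_type_of_isJacobsonRing R (B ⧸ P)
      obtain ⟨f, hf, hf0⟩ := (Algebra.IsIntegral.isIntegral (R := R)
        (Ideal.Quotient.mk P ⟨z, hzB⟩) : IsIntegral R _)
      refine ⟨⟨V, fun a => hBV (hρB a)⟩, hNO ⟨fun t ht => ?_, fun s hs => ?_⟩,
        Or.inr (Set.mem_iUnion.2 ⟨⟨f, hf⟩, ?_⟩)⟩
      · exact hBV (Subring.subset_closure (Or.inr (Or.inl (Or.inl ht))))
      · have h1 : s ∈ B := Subring.subset_closure (Or.inr (Or.inl (Or.inr hs)))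
        exact (hPV ⟨s, h1⟩).1 (hPle (hV₀N.2 s hs : (⟨s, h1⟩ : B) ∈ cen V₀.1 B hBV₀))
      · change inM V (f.eval₂ ρ z)
        have h1 : f.eval₂ (algebraMap R (B ⧸ P)) (Ideal.Quotient.mk P ⟨z, hzB⟩) =
            Ideal.Quotient.mk P (f.eval₂ (ρ.codRestrict B hρB) ⟨z, hzB⟩) := by
          rw [hom_eval₂]
          rfl
        rw [h1, Ideal.Quotient.eq_zero_iff_mem, hPV] at hf0
        have h2 : ((f.eval₂ (ρ.codRestrict B hρB) ⟨z, hzB⟩ : B) : K) = f.eval₂ ρ z := by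
          have h3 := hom_eval₂ f (ρ.codRestrict B hρB) B.subtype (⟨z, hzB⟩ : B)
          exact h3
        rwa [h2] at hf0
    · exact ⟨V₀, hV₀, Or.inl hz⟩
  · rintro V (hV | hV) hz
    · exact absurd hz hV
    · obtain ⟨f, hf⟩ := Set.mem_iUnion.1 hV
      exact ⟨f.1, f.2, hf⟩

end Pool.Agent.K6.H44.GV
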