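import Pool.Agent.K6.H44.GV.Dvr
import Pool.Agent.TH188.QS.LU

/-!
# Discrete valuations of finite rank whose residue field is algebraic
-/

set_option autoImplicit false
set_option linter.unusedVariables false
set_option linter.unusedSectionVars false

universe u

namespace Pool.Agent.K6.H44.GV

open IsLocalRing Pool.Agent.W418.LU2 Pool.Agent.TH188.QS Pool.Agent.R187.CT Pool.Agent.Y562.NN
open Polynomial

/-- The residue, as a function on the field. -/
noncomputable def rmap {K : Type u} [Field K] (V : ValuationSubring K) (t : K) : ResidueField V := by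
  classical exact if h : t ∈ V then residue V ⟨t, h⟩ else 0

lemma rmap_of {K : Type u} [Field K] {V : ValuationSubring K} {t : K} (h : t ∈ V) :
    rmap V t = residue V ⟨t, h⟩ := by
  unfold rmap
  rw [dif_pos h]

lemma rsd_apply {A K : Type u} [CommRing A] [Field K] {V : ValuationSubring K} {σ : A →+* K}
    {h : ∀ a, σ a ∈ V.toSubring} {a : A} : rsd V σ h a = rmap V (σ a) := by
  rw [rmap_of (h a)]
  rfl

lemma range_rsd {A K : Type u} [CommRing A] [Field K] (σ : A →+* K) (T : Set K)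
    (V : ValuationSubring K) (hσ : ∀ a, σ a ∈ V.toSubring)
    (hB : ∀ b : rg σ T, (rg σ T).subtype b ∈ V.toSubring) :
    (rsd V (rg σ T).subtype hB).range ≤
      Subring.closure (((rsd V σ hσ).range : Set (ResidueField V)) ∪ rmap V '' T) := by
  rintro _ ⟨⟨b, hb⟩, rfl⟩
  have key : ∀ (b : K) (hb : b ∈ rg σ T) (hbV : b ∈ V), rmap V b ∈
      Subring.closure (((rsd V σ hσ).range : Set (ResidueField V)) ∪ rmap V '' T) := by
    intro b hb
    have hV : ∀ b ∈ rg σ T, b ∈ V := fun b hb => hB ⟨b, hb⟩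
    induction hb using Subring.closure_induction with
    | mem x hx =>
      intro hxV
      rcases hx with ⟨a, rfl⟩ | hx
      · exact Subring.subset_closure (Or.inl ⟨a, rsd_apply⟩)
      · exact Subring.subset_closure (Or.inr ⟨x, hx, rfl⟩)
    | zero =>
      intro h
      rw [rmap_of h]
      have : (⟨0, h⟩ : V) = 0 := rfl
      rw [this, map_zero]
      exact Subring.zero_mem _
    | one =>
      intro h
      rw [rmap_of h]
      have : (⟨1, h⟩ : V) = 1 := rfl
      rw [this, map_one]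
      exact Subring.one_mem _
    | add x y hx hy h1 h2 =>
      intro h
      have h3 := h1 (hV x hx)
      have h4 := h2 (hV y hy)
      rw [rmap_of (hV x hx)] at h3
      rw [rmap_of (hV y hy)] at h4
      rw [rmap_of h]
      have : (⟨x + y, h⟩ : V) = ⟨x, hV x hx⟩ + ⟨y, hV y hy⟩ := rfl
      rw [this, map_add]
      exact Subring.add_mem _ h3 h4
    | neg x hx h1 =>
      intro h
      have h3 := h1 (hV x hx)
      rw [rmap_of (hV x hx)] at h3
      rw [rmap_of h]
      have : (⟨-x, h⟩ : V) = -⟨x, hV x hx⟩ := rfl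
      rw [this, map_neg]
      exact Subring.neg_mem _ h3
    | mul x y hx hy h1 h2 =>
      intro h
      have h3 := h1 (hV x hx)
      have h4 := h2 (hV y hy)
      rw [rmap_of (hV x hx)] at h3
      rw [rmap_of (hV y hy)] at h4
      rw [rmap_of h]
      have : (⟨x * y, h⟩ : V) = ⟨x, hV x hx⟩ * ⟨y, hV y hy⟩ := rfl
      rw [this, map_mul]
      exact Subring.mul_mem _ h3 h4
  rw [rsd_apply]
  exact key b hb (hB ⟨b, hb⟩)

/-- Finitely generated fields have finite transcendence degree. -/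
theorem trdeg_finite {k F : Type u} [Field k] [Field F] (σ : k →+* F)
    (hF : ∃ S : Set F, S.Finite ∧ ∀ z, Fr (rg σ S) z) :
    ∃ d : ℕ, @Algebra.trdeg k F _ _ σ.toAlgebra ≤ d := by
  classical
  let : Algebra k F := σ.toAlgebra
  obtain ⟨S, hS, hfr⟩ := hF
  have h1 : (Algebra.adjoin k S).toSubring = rg σ S := adjoin_toSubring S
  have hfrac : IsFractionRing (Algebra.adjoin k S) F := by
    refine IsFractionRing.of_field _ _ fun x => ?_
    obtain ⟨a, ha, b, hb, hb0, h2⟩ := hfr x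
    rw [← h1] at ha hb
    exact ⟨⟨a, ha⟩, ⟨b, hb⟩, h2.trans (div_eq_mul_inv _ _).symm⟩
  have halg : Algebra.IsAlgebraic (Algebra.adjoin k S) F :=
    IsLocalization.isAlgebraic _ (nonZeroDivisors (Algebra.adjoin k S))
  have h2 : Algebra.trdeg k F ≤ Cardinal.mk S := Algebra.IsAlgebraic.trdeg_le_cardinalMk k S
  have h3 : Cardinal.mk S < Cardinal.aleph0 := Cardinal.lt_aleph0_iff_set_finite.2 hS
  obtain ⟨n, hn⟩ := Cardinal.lt_aleph0.1 h3
  exact ⟨n, h2.trans hn.le⟩

lemma eval₂_mem {A K : Type u} [CommRing A] [Field K] {V : ValuationSubring K} {σ : A →+* K}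
    (h : ∀ a, σ a ∈ V.toSubring) {z : K} (hz : z ∈ V) (f : A[X]) :
    ∃ hf : f.eval₂ σ z ∈ V, residue V ⟨f.eval₂ σ z, hf⟩ =
      f.eval₂ (rsd V σ h) (residue V ⟨z, hz⟩) := by
  let σ' : A →+* V := σ.codRestrict V.toSubring h
  have h1 : ((f.eval₂ σ' ⟨z, hz⟩ : V) : K) = f.eval₂ σ z := by
    have h2 := hom_eval₂ f σ' V.subtype (⟨z, hz⟩ : V)
    exact h2
  have h3 : f.eval₂ σ z ∈ V := by
    rw [← h1]
    exact (f.eval₂ σ' ⟨z, hz⟩ : V).2
  refine ⟨h3, ?_⟩
  have h4 : (⟨f.eval₂ σ z, h3⟩ : V) = f.eval₂ σ' ⟨z, hz⟩ := Subtype.ext h1.symm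
  rw [h4, hom_eval₂]
  rfl

/-- Existence of stepwise discrete valuations with algebraic residue fields. -/
theorem exists_sd {R : Type u} [CommRing R] {k : Type u} [Field k] (τ : R →+* k) (d : ℕ) :
    ∀ (F : Type u) [Field F] (σ : k →+* F), (∃ S : Set F, S.Finite ∧ ∀ z, Fr (rg σ S) z) →
      @Algebra.trdeg k F _ _ σ.toAlgebra ≤ d →
      ∃ (n : ℕ) (W : ValuationSubring F), SD R n (σ.comp τ) W ∧ (∀ a, σ a ∈ W) ∧
        ∀ z ∈ W, ∃ f : k[X], f.Monic ∧ inM W (f.eval₂ σ z) := by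
  classical
  have base : ∀ (F : Type u) [Field F] (σ : k →+* F),
      @Algebra.IsAlgebraic k F _ _ σ.toAlgebra →
      ∃ (n : ℕ) (W : ValuationSubring F), SD R n (σ.comp τ) W ∧ (∀ a, σ a ∈ W) ∧
        ∀ z ∈ W, ∃ f : k[X], f.Monic ∧ inM W (f.eval₂ σ z) := by
    intro F _ σ halg
    let : Algebra k F := σ.toAlgebra
    refine ⟨0, ⊤, rfl, fun _ => trivial, fun z _ => ?_⟩
    obtain ⟨f, hf, hf0⟩ := (Algebra.IsAlgebraic.isAlgebraic (R := k) z).isIntegral
    exact ⟨f, hf, Or.inl hf0⟩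
  induction d with
  | zero =>
    intro F _ σ hF hd
    apply base
    let : Algebra k F := σ.toAlgebra
    rw [← trdeg_eq_zero_iff]
    have hd' : Algebra.trdeg k F ≤ (0 : ℕ) := hd
    rw [Nat.cast_zero] at hd'
    exact le_antisymm hd' bot_le
  | succ d ih =>
    intro F _ σ hF hd
    by_cases halg : @Algebra.IsAlgebraic k F _ _ σ.toAlgebra
    · exact base F σ halg
    let : Algebra k F := σ.toAlgebra
    obtain ⟨S, hS, hfr⟩ := hF
    have htr : ∃ x : F, Transcendental k x := by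
      by_contra hcon
      push Not at hcon
      exact halg ⟨fun x => by
        have := hcon x
        unfold Transcendental at this
        rwa [not_not] at this⟩
    obtain ⟨x, hx⟩ := htr
    have hT : (insert x S).Finite := hS.insert x
    set B : Subring F := rg σ (insert x S) with hB
    have hnoe : IsNoetherianRing B := noe_rg hj_field σ hT
    have hfrB : ∀ z, Fr B z := fun z =>
      fr_mono (Subring.closure_mono (Set.union_subset_union_right _ (Set.subset_insert x S))) (hfr z)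
    have hxB : x ∈ B := Subring.subset_closure (Or.inr (Set.mem_insert x S))
    -- `B` is not a field
    have hnf : ¬ IsField B := by
      intro hfield
      let C : Subalgebra k F := Algebra.adjoin k (insert x S)
      have hCB : C.toSubring = B := adjoin_toSubring _
      have hxC : x ∈ C := Algebra.subset_adjoin (Set.mem_insert x S)
      have hft : Algebra.FiniteType k C := by
        rw [← Subalgebra.fg_iff_finiteType]
        exact ⟨hT.toFinset, by rw [hT.coe_toFinset]⟩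
      have hCf : IsField C := by
        have h1 : ∀ {A A' : Subring F}, A = A' → IsField A' → IsField A := by
          rintro A _ rfl h; exact h
        exact h1 hCB hfield
      let : Field C := hCf.toField
      have hfin : Module.Finite k C := finite_of_finite_type_of_isJacobsonRing k C
      have hint : IsIntegral k (⟨x, hxC⟩ : C) := Algebra.IsIntegral.isIntegral _
      have h2 : IsIntegral k x := hint.map C.val
      exact hx h2.isAlgebraic
    obtain ⟨b, hb0, hb⟩ := Ring.exists_not_isUnit_of_not_isField hnf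
    have h1 : Ideal.span {b} ≠ ⊤ := by
      rw [Ne, Ideal.span_singleton_eq_top]
      exact hb
    obtain ⟨𝔮, h𝔮⟩ := Ideal.nonempty_minimalPrimes h1
    have hp : 𝔮.IsPrime := h𝔮.1.1
    have h2 : 𝔮.height ≤ 1 := Ideal.height_le_one_of_isPrincipal_of_mem_minimalPrimes _ 𝔮 h𝔮
    have hb𝔮 : b ∈ 𝔮 := h𝔮.1.2 (Ideal.mem_span_singleton_self b)
    have h3 : 𝔮 ≠ ⊥ := by
      rintro rfl
      exact hb0 hb𝔮
    obtain ⟨W₁, hBW, hdvr, hq, S₂, hS₂, hfr₂⟩ := exists_dvr2 B hfrB 𝔮 h3 h2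
    have hσW : ∀ a, σ a ∈ W₁.toSubring := fun a =>
      hBW ⟨σ a, Subring.subset_closure (Or.inl ⟨a, rfl⟩)⟩
    have hbW : inM W₁ (b : F) := (hq b).1 hb𝔮
    have htd := trdeg_residue σ W₁ hσW b (fun h => hb0 (Subtype.ext h)) hbW
    have htd2 : @Algebra.trdeg k (ResidueField W₁) _ _ (rsd W₁ σ hσW).toAlgebra ≤ d := by
      have h4 := htd.trans hd
      have h5 : @Algebra.trdeg k (ResidueField W₁) _ _ (rsd W₁ σ hσW).toAlgebra <
          Cardinal.aleph0 := by
        refine lt_of_le_of_lt (le_self_add.trans h4) ?_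
        exact Cardinal.natCast_lt_aleph0
      obtain ⟨m, hm⟩ := Cardinal.lt_aleph0.1 h5
      rw [hm] at h4 ⊢
      have h6 : m + 1 ≤ d + 1 := by exact_mod_cast h4
      have h7 : m ≤ d := by omega
      exact_mod_cast h7
    obtain ⟨n, W₂, hSD, hσ₂, hz₂⟩ := ih (ResidueField W₁) (rsd W₁ σ hσW)
      ⟨rmap W₁ '' (insert x S) ∪ S₂, (hT.image _).union hS₂, fun z => by
        refine fr_mono ?_ (hfr₂ z)
        rw [Subring.closure_le]
        rintro w (hw | hw)
        · have h4 := range_rsd σ (insert x S) W₁ hσW hBW hw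
          exact Subring.closure_mono (Set.union_subset_union_right _ Set.subset_union_left) h4
        · exact Subring.subset_closure (Or.inr (Or.inr hw))⟩ htd2
    refine ⟨n + 1, cmp W₁ W₂, ⟨W₁, W₂, fun a => hσW (τ a), cmp_iff _ _, Or.inl hdvr, hSD⟩,
      fun a => ⟨hσW a, hσ₂ a⟩, ?_⟩
    rintro z ⟨hz, hz'⟩
    obtain ⟨f, hf, hfM⟩ := hz₂ _ hz'
    obtain ⟨h4, h5⟩ := eval₂_mem hσW hz f
    refine ⟨f, hf, inM_cmp h4 ?_⟩
    rw [h5]
    exact hfM

/-- Valuation rings with a given centre. -/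
theorem exists_center {K : Type u} [Field K] (B : Subring K) (P : Ideal B) [hP : P.IsPrime] :
    ∃ V : ValuationSubring K, B ≤ V.toSubring ∧ ∀ b : B, b ∈ P ↔ inM V b := by
  have hu : ∀ y : P.primeCompl, IsUnit (B.subtype y) := by
    intro y
    rw [isUnit_iff_ne_zero]
    intro h
    exact y.2 (by
      have h1 : (y : B) = 0 := Subtype.ext h
      rw [h1]; exact P.zero_mem)
  let g : Localization.AtPrime P →+* K := IsLocalization.lift (M := P.primeCompl) hu
  obtain ⟨V, hV, hloc⟩ := IsLocalRing.exists_factor_valuationRing g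
  have hg : ∀ b : B, g (algebraMap B _ b) = b := fun b => IsLocalization.lift_eq hu b
  let φ : Localization.AtPrime P →+* V := g.codRestrict V.toSubring hV
  have hφ : IsLocalHom φ := hloc
  refine ⟨V, fun b hb => ?_, fun b => ?_⟩
  · have := hV (algebraMap B _ ⟨b, hb⟩)
    rw [hg] at this
    exact this
  · have h1 : (φ (algebraMap B _ b) : K) = b := hg b
    rw [← h1, inM_coe, mem_maximalIdeal, ← IsLocalization.AtPrime.to_map_mem_maximal_iff
      (Localization.AtPrime P) P b, mem_maximalIdeal, mem_nonunits_iff, mem_nonunits_iff]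
    exact not_congr ⟨fun h => h.map φ, fun h => hφ.map_nonunit _ h⟩

lemma rg_mono {A K : Type u} [CommRing A] [Field K] (σ : A →+* K) {T T' : Set K} (h : T ⊆ T') :
    rg σ T ≤ rg σ T' := Subring.closure_mono (Set.union_subset_union_right _ h)

/-- A valuation with a given centre which is a maximal ideal, composed of discrete valuations of
rank one, whose residue field is algebraic over the residue field of the centre. -/
theorem exists_zd {R : Type u} [CommRing R] (hR : HJ R) {K : Type u} [Field K] (ρ : R →+* K)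
    {T : Set K} (hT : T.Finite) {B : Subring K} (hB : B = rg ρ T) (hfr : ∀ z, Fr B z)
    (P : Ideal B) (hP : P.IsMaximal) :
    ∃ (n : ℕ) (V : ValuationSubring K), SD R n ρ V ∧ B ≤ V.toSubring ∧
      (∀ b : B, b ∈ P → inM V b) ∧
      ∀ z ∈ V, ∃ f : B[X], f.Monic ∧ inM V (f.eval₂ B.subtype z) := by
  classical
  have hnoe : IsNoetherianRing B := by rw [hB]; exact noe_rg hR ρ hT
  have hρB : ∀ a, ρ a ∈ B := fun a => by
    rw [hB]; exact Subring.subset_closure (Or.inl ⟨a, rfl⟩)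
  have hTB : ∀ t ∈ T, t ∈ B := fun t ht => by
    rw [hB]; exact Subring.subset_closure (Or.inr ht)
  by_cases hP0 : P = ⊥
  · -- `B` is a field
    have hfield : ∀ z : K, z ∈ B := by
      intro z
      obtain ⟨a, ha, b, hb, hb0, rfl⟩ := hfr z
      have h1 : (⟨b, hb⟩ : B) ∉ P := by
        rw [hP0, Ideal.mem_bot]
        exact fun h => hb0 (congrArg Subtype.val h)
      obtain ⟨c, hc⟩ := hP.exists_inv h1
      rw [hP0] at hc
      obtain ⟨y, hy⟩ := hc
      rw [Ideal.mem_bot] at hy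
      obtain ⟨hy, h2⟩ := hy
      have h3 : c * ⟨b, hb⟩ = 1 := by
        rw [hy, add_zero] at h2
        exact h2
      have h4 : (c : K) * b = 1 := congrArg Subtype.val h3
      rw [← eq_inv_of_mul_eq_one_left h4]
      exact B.mul_mem ha c.2
    refine ⟨0, ⊤, rfl, fun _ _ => trivial, fun b hb => ?_, fun z _ => ?_⟩
    · rw [hP0, Ideal.mem_bot] at hb
      exact Or.inl (congrArg Subtype.val hb)
    · refine ⟨X - C ⟨z, hfield z⟩, monic_X_sub_C _, Or.inl ?_⟩
      rw [eval₂_sub, eval₂_X, eval₂_C]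
      exact sub_self z
  have hPp : P.IsPrime := hP.isPrime
  obtain ⟨V₀, hBV₀, hPV₀⟩ := exists_center B P
  obtain ⟨G, hG⟩ := (IsNoetherian.noetherian P : P.FG)
  have hG : Ideal.span (G : Set B) = P := hG
  obtain ⟨s, hsG, hs0, hs⟩ := exists_gen V₀ hBV₀ G.finite_toSet (by rw [hG]; exact hP0)
  have hs0' : (s : K) ≠ 0 := fun h => hs0 (Subtype.ext h)
  let T' : Set K := T ∪ (fun g : B => (g : K) / s) '' (G : Set B)
  have hT' : T'.Finite := hT.union (G.finite_toSet.image _)
  obtain ⟨B', hB'⟩ : ∃ B' : Subring K, B' = rg ρ T' := ⟨_, rfl⟩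
  have hBB' : B ≤ B' := by rw [hB, hB']; exact rg_mono ρ Set.subset_union_left
  have hnoe' : IsNoetherianRing B' := by rw [hB']; exact noe_rg hR ρ hT'
  have hfr' : ∀ z, Fr B' z := fun z => fr_mono hBB' (hfr z)
  have hB'V₀ : B' ≤ V₀.toSubring := by
    rw [hB', Subring.closure_le]
    rintro z (⟨a, rfl⟩ | hz | ⟨g, hg, rfl⟩)
    · exact hBV₀ (hρB a)
    · exact hBV₀ (hTB z hz)
    · exact hs g (Ideal.subset_span hg)
  have hsP : s ∈ P := by rw [← hG]; exact Ideal.subset_span hsG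
  have hsM : inM V₀ (s : K) := (hPV₀ s).1 hsP
  let s' : B' := ⟨s, hBB' s.2⟩
  have h1 : Ideal.span {s'} ≠ ⊤ := by
    rw [Ne, Ideal.span_singleton_eq_top]
    intro hu
    obtain ⟨c, hc⟩ := isUnit_iff_exists_inv.1 hu
    have h2 : (s : K) * c = 1 := congrArg Subtype.val hc
    have h3 : (c : K) = (s : K)⁻¹ := eq_inv_of_mul_eq_one_right h2
    rcases hsM with h4 | h4
    · exact hs0' h4
    · exact h4 (by rw [← h3]; exact hB'V₀ c.2)
  obtain ⟨𝔮, h𝔮⟩ := Ideal.nonempty_minimalPrimes h1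
  have hp : 𝔮.IsPrime := h𝔮.1.1
  have h2 : 𝔮.height ≤ 1 := Ideal.height_le_one_of_isPrincipal_of_mem_minimalPrimes _ 𝔮 h𝔮
  have hs𝔮 : s' ∈ 𝔮 := h𝔮.1.2 (Ideal.mem_span_singleton_self s')
  have h3 : 𝔮 ≠ ⊥ := by
    rintro rfl
    exact hs0' (congrArg Subtype.val (Ideal.mem_bot.1 hs𝔮))
  obtain ⟨V₁, hB'V, hdvr, hq, S₂, hS₂, hfr₂⟩ := exists_dvr2 B' hfr' 𝔮 h3 h2
  have hsV₁ : inM V₁ (s : K) := (hq s').1 hs𝔮
  have hBV : ∀ b : B, B.subtype b ∈ V₁.toSubring := fun b => hB'V ⟨b, hBB' b.2⟩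
  have hρV : ∀ a, ρ a ∈ V₁.toSubring := fun a => hBV ⟨ρ a, hρB a⟩
  have hker : P ≤ RingHom.ker (rsd V₁ B.subtype hBV) := by
    rw [← hG, Ideal.span_le]
    intro g hg
    change rsd V₁ B.subtype hBV g = 0
    rw [rsd_eq_zero]
    have h4 : (B.subtype g : K) = (g : K) / s * s := by
      rw [div_mul_cancel₀ _ hs0']
      rfl
    rw [h4]
    have h5 : (g : K) / s ∈ B' := by
      rw [hB']
      exact Subring.subset_closure (Or.inr (Or.inr ⟨g, hg, rfl⟩))
    exact inM.mul_left (hB'V ⟨_, h5⟩) hsV₁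
  let : Field (B ⧸ P) := Ideal.Quotient.field P
  let σ : (B ⧸ P) →+* ResidueField V₁ := Ideal.Quotient.lift P (rsd V₁ B.subtype hBV) hker
  have hσ : ∀ b : B, σ (Ideal.Quotient.mk P b) = rsd V₁ B.subtype hBV b := fun b =>
    Ideal.Quotient.lift_mk P _ _
  let τ : R →+* (B ⧸ P) := (Ideal.Quotient.mk P).comp (ρ.codRestrict B hρB)
  have hστ : σ.comp τ = rsd V₁ ρ hρV := by
    ext a
    exact hσ (ρ.codRestrict B hρB a)
  have hFG : ∃ S : Set (ResidueField V₁), S.Finite ∧ ∀ z, Fr (rg σ S) z := by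
    refine ⟨rmap V₁ '' T' ∪ S₂, (hT'.image _).union hS₂, fun z => fr_mono ?_ (hfr₂ z)⟩
    rw [Subring.closure_le]
    rintro w (hw | hw)
    · subst hB'
      have h4 := range_rsd ρ T' V₁ hρV hB'V hw
      refine (Subring.closure_le.2 ?_ : Subring.closure (((rsd V₁ ρ hρV).range :
        Set (ResidueField V₁)) ∪ rmap V₁ '' T') ≤ _) h4
      rintro w (⟨a, rfl⟩ | hw)
      · refine Subring.subset_closure (Or.inl ⟨τ a, ?_⟩)
        rw [← hστ]
        rfl
      · exact Subring.subset_closure (Or.inr (Or.inl hw))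
    · exact Subring.subset_closure (Or.inr (Or.inr hw))
  obtain ⟨d, hd⟩ := trdeg_finite σ hFG
  obtain ⟨n, W, hSD, hσW, hz⟩ := exists_sd τ d (ResidueField V₁) σ hFG hd
  rw [hστ] at hSD
  refine ⟨n + 1, cmp V₁ W, ⟨V₁, W, hρV, cmp_iff _ _, Or.inl hdvr, hSD⟩, ?_, ?_, ?_⟩
  · intro b hb
    refine ⟨hBV ⟨b, hb⟩, ?_⟩
    have h4 := hσW (Ideal.Quotient.mk P ⟨b, hb⟩)
    rw [hσ] at h4
    exact h4
  · intro b hb
    have h4 : rsd V₁ B.subtype hBV b = 0 := hker hb
    exact inM_cmp (hBV b) (Or.inl h4)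
  · rintro z ⟨hzV, hz'⟩
    obtain ⟨f, hf, hfM⟩ := hz _ hz'
    have hlift : f ∈ lifts (Ideal.Quotient.mk P) := by
      rw [mem_lifts]
      exact map_surjective _ Ideal.Quotient.mk_surjective f
    obtain ⟨q, hq1, -, hq2⟩ := lifts_and_degree_eq_and_monic hlift hf
    obtain ⟨h4, h5⟩ := eval₂_mem hBV hzV q
    refine ⟨q, hq2, inM_cmp h4 ?_⟩
    rw [h5]
    have h6 : q.eval₂ (rsd V₁ B.subtype hBV) (residue V₁ ⟨z, hzV⟩) =
        f.eval₂ σ (residue V₁ ⟨z, hzV⟩) := by
      rw [← hq1, eval₂_map]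
      congr 1
    rw [h6]
    exact hfM

end Pool.Agent.K6.H44.GV
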